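import Pool.Agent.H86.TS.Geo

/-!
ROW GeA (130 lines).  Frames.
* `exists_frame`: `dt n0 n1 ≠ 0` etc.  Cramer: `dt n1 n2 • n0 + dt n2 n0 • n1 + dt n0 n1 • n2 = 0` (componentwise `ring`,
  `Fin.forall_fin_two`/`ext i; fin_cases i`).  Put `g_i` = the three summands, `S = Σ ‖g_i‖ > 0`, `f_i = S⁻¹ • g_i`.
  `dt (f 0) (f 1) = S⁻² dt n1 n2 · dt n2 n0 · dt n0 n1 ≠ 0`.
* `four_dt_sq`: `4 dt² = q₁ q₂ q₃`: `dt² = ‖f0‖²‖f1‖² - ⟪f0,f1⟫²` (Lagrange, coordinates: `EuclideanSpace.norm_sq_eq`, `Fin.sum_univ_two`,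
  `real_inner` as a sum), `‖f2‖² = ‖f0+f1‖² = ‖f0‖²+‖f1‖²+2⟪f0,f1⟫` (`f2 = -(f0+f1)`), so with `a,b,c` the norms, `a+b+c = 1`:
  `4 dt² = 4a²b² - (c²-a²-b²)² = (a+b-c)(a+b+c)(c+a-b)(c-a+b) = (1-2c)(1-2b)(1-2a)`.
* `qq_pos`: triangle inequality gives `a ≤ b + c`, i.e. `q_i ≥ 0`, and by `four_dt_sq` the product is not zero.
* `frame_cst`: `Cst (qq f 0) (qq f 1) (qq f 2) (TT f)`: `T² = 121/(2304·3·dt²)`, `1728 · 4 dt² · T² = 121`.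
* `TT_dt`: `2 T |dt| = 11/(24√3)`.
* `frame_bound`: `|dt| ‖t‖ ≤ |⟪f0,t⟫| + |⟪f1,t⟫|`: Cramer: `dt t0 = ⟪f0,t⟫ f1(1) - ⟪f1,t⟫ f0(1)`, `dt t1 = ⟪f1,t⟫ f0(0) - ⟪f0,t⟫ f1(0)`, so
  `dt² ‖t‖² = ‖⟪f0,t⟫ J f1 - ⟪f1,t⟫ J f0‖²`, and `‖f0‖, ‖f1‖ ≤ 1` (triangle inequality; or expand the squares and use Cauchy-Schwarz).
* `dt_le`: `|dt| ≤ 1` (`dt² ≤ ‖f0‖²‖f1‖² ≤ 1`).
-/

namespace Pool.Agent.H86.TS

lemma GeA_nsq (u : E) : ‖u‖ ^ 2 = u 0 ^ 2 + u 1 ^ 2 := by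
  rw [EuclideanSpace.norm_sq_eq, Fin.sum_univ_two, Real.norm_eq_abs, Real.norm_eq_abs, sq_abs,
    sq_abs]

lemma GeA_inner (u v : E) : inner ℝ u v = u 0 * v 0 + u 1 * v 1 := by
  rw [PiLp.inner_apply, Fin.sum_univ_two]
  simp only [RCLike.inner_apply, conj_trivial]
  ring

lemma GeA_ext {u v : E} (h0 : u 0 = v 0) (h1 : u 1 = v 1) : u = v := by
  ext i
  fin_cases i
  · exact h0
  · exact h1

lemma GeA_two {f : Fin 3 → E} (hf : Frame f) : f 2 = -(f 0 + f 1) :=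
  eq_neg_of_add_eq_zero_right hf.sum

lemma GeA_le {f : Fin 3 → E} (hf : Frame f) (i : Fin 3) : 2 * ‖f i‖ ≤ 1 := by
  have hn := hf.norm
  have hs := hf.sum
  fin_cases i
  · have h : f 0 = -(f 1 + f 2) := by
      rw [eq_neg_iff_add_eq_zero, ← hs, add_assoc]
    have h1 : ‖f 0‖ ≤ ‖f 1‖ + ‖f 2‖ := by
      conv_lhs => rw [h, norm_neg]
      exact norm_add_le _ _
    show 2 * ‖f 0‖ ≤ 1
    linarith
  · have h : f 1 = -(f 0 + f 2) := by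
      rw [eq_neg_iff_add_eq_zero, ← hs]
      abel
    have h1 : ‖f 1‖ ≤ ‖f 0‖ + ‖f 2‖ := by
      conv_lhs => rw [h, norm_neg]
      exact norm_add_le _ _
    show 2 * ‖f 1‖ ≤ 1
    linarith
  · have h1 : ‖f 2‖ ≤ ‖f 0‖ + ‖f 1‖ := by
      conv_lhs => rw [GeA_two hf, norm_neg]
      exact norm_add_le _ _
    show 2 * ‖f 2‖ ≤ 1
    linarith

theorem exists_frame (n : Fin 3 → E) (h01 : dt (n 0) (n 1) ≠ 0) (h12 : dt (n 1) (n 2) ≠ 0)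
    (h20 : dt (n 2) (n 0) ≠ 0) :
    ∃ f : Fin 3 → E, Frame f ∧ ∀ i, ∃ c : ℝ, c ≠ 0 ∧ f i = c • n i := by
  have hn0 : n 0 ≠ 0 := by
    intro h
    apply h01
    rw [h]
    simp [dt]
  have hg0 : 0 < ‖dt (n 1) (n 2) • n 0‖ := norm_pos_iff.2 (smul_ne_zero h12 hn0)
  obtain ⟨S, hS⟩ : ∃ S, S = ‖dt (n 1) (n 2) • n 0‖ + ‖dt (n 2) (n 0) • n 1‖ +
    ‖dt (n 0) (n 1) • n 2‖ := ⟨_, rfl⟩
  have hS0 : 0 < S := by
    rw [hS]
    positivity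
  have hinv : S⁻¹ ≠ 0 := inv_ne_zero hS0.ne'
  refine ⟨![(S⁻¹ * dt (n 1) (n 2)) • n 0, (S⁻¹ * dt (n 2) (n 0)) • n 1,
    (S⁻¹ * dt (n 0) (n 1)) • n 2], ⟨?_, ?_, ?_⟩, ?_⟩
  · simp only [Matrix.cons_val_zero, Matrix.cons_val_one, Matrix.cons_val]
    apply GeA_ext
    · simp [dt]
      ring
    · simp [dt]
      ring
  · simp only [Matrix.cons_val_zero, Matrix.cons_val_one, Matrix.cons_val]
    rw [mul_smul, mul_smul, mul_smul, norm_smul S⁻¹, norm_smul S⁻¹, norm_smul S⁻¹, ← mul_add,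
      ← mul_add, ← hS, norm_inv, Real.norm_of_nonneg hS0.le]
    exact inv_mul_cancel₀ hS0.ne'
  · simp only [Matrix.cons_val_zero, Matrix.cons_val_one]
    have h : dt ((S⁻¹ * dt (n 1) (n 2)) • n 0) ((S⁻¹ * dt (n 2) (n 0)) • n 1) =
        (S⁻¹ * dt (n 1) (n 2)) * (S⁻¹ * dt (n 2) (n 0)) * dt (n 0) (n 1) := by
      simp only [dt, PiLp.smul_apply, smul_eq_mul]
      ring
    rw [h]
    exact mul_ne_zero (mul_ne_zero (mul_ne_zero hinv h12) (mul_ne_zero hinv h20)) h01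
  · intro i
    fin_cases i
    · exact ⟨_, mul_ne_zero hinv h12, rfl⟩
    · exact ⟨_, mul_ne_zero hinv h20, rfl⟩
    · exact ⟨_, mul_ne_zero hinv h01, rfl⟩

theorem four_dt_sq {f : Fin 3 → E} (hf : Frame f) :
    4 * dt (f 0) (f 1) ^ 2 = qq f 0 * qq f 1 * qq f 2 := by
  have ha := GeA_nsq (f 0)
  have hb := GeA_nsq (f 1)
  have hc := GeA_nsq (f 2)
  rw [GeA_two hf] at hc
  rw [norm_neg, PiLp.neg_apply, PiLp.neg_apply, PiLp.add_apply, PiLp.add_apply] at hc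
  have hn := hf.norm
  rw [GeA_two hf, norm_neg] at hn
  unfold qq
  rw [GeA_two hf, norm_neg]
  have hcc : ‖f 0 + f 1‖ = 1 - ‖f 0‖ - ‖f 1‖ := by linarith
  rw [hcc] at hc ⊢
  unfold dt
  generalize ‖f 0‖ = a at *
  generalize ‖f 1‖ = b at *
  generalize f 0 0 = x at *
  generalize f 0 1 = y at *
  generalize f 1 0 = z at *
  generalize f 1 1 = w at *
  have hin : 2 * (x * z + y * w) = (1 - a - b) ^ 2 - a ^ 2 - b ^ 2 := by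
    rw [hc, ha, hb]
    ring
  have h1 : 4 * (x * w - y * z) ^ 2 = 4 * (a ^ 2 * b ^ 2) - (2 * (x * z + y * w)) ^ 2 := by
    rw [ha, hb]
    ring
  rw [h1, hin]
  ring

theorem qq_pos {f : Fin 3 → E} (hf : Frame f) (i : Fin 3) : 0 < qq f i := by
  have h := four_dt_sq hf
  have hpos : 0 < 4 * dt (f 0) (f 1) ^ 2 := by
    have := hf.det
    positivity
  rw [h] at hpos
  have hle : ∀ j, 0 ≤ qq f j := by
    intro j
    have := GeA_le hf j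
    unfold qq
    linarith
  have hne : ∀ j, qq f j ≠ 0 := by
    intro j hj
    have : qq f 0 * qq f 1 * qq f 2 = 0 := by
      fin_cases j
      · have hj' : qq f 0 = 0 := hj
        rw [hj']
        ring
      · have hj' : qq f 1 = 0 := hj
        rw [hj']
        ring
      · have hj' : qq f 2 = 0 := hj
        rw [hj']
        ring
    linarith
  exact lt_of_le_of_ne (hle i) (Ne.symm (hne i))

theorem frame_cst {f : Fin 3 → E} (hf : Frame f) : Cst (qq f 0) (qq f 1) (qq f 2) (TT f) := by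
  have hd : 0 < |dt (f 0) (f 1)| := abs_pos.2 hf.det
  refine ⟨qq_pos hf 0, qq_pos hf 1, qq_pos hf 2, ?_, ?_, ?_⟩
  · have := hf.norm
    unfold qq
    linarith
  · unfold TT
    positivity
  · rw [← four_dt_sq hf]
    unfold TT
    rw [div_pow, mul_pow, mul_pow, Real.sq_sqrt (by norm_num), sq_abs]
    have := hf.det
    field_simp
    norm_num

theorem TT_dt {f : Fin 3 → E} (hf : Frame f) : 2 * TT f * |dt (f 0) (f 1)| = 11 / (24 * √3) := by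
  have hd : 0 < |dt (f 0) (f 1)| := abs_pos.2 hf.det
  have h3 : 0 < √3 := by positivity
  unfold TT
  field_simp
  norm_num

theorem frame_bound {f : Fin 3 → E} (hf : Frame f) (t : E) :
    |dt (f 0) (f 1)| * ‖t‖ ≤ |inner ℝ (f 0) t| + |inner ℝ (f 1) t| := by
  rw [← sq_le_sq₀ (by positivity) (by positivity), mul_pow, sq_abs, GeA_nsq t]
  have ha1 : ‖f 0‖ ≤ 1 := by linarith [GeA_le hf 0, norm_nonneg (f 0)]
  have hb1 : ‖f 1‖ ≤ 1 := by linarith [GeA_le hf 1, norm_nonneg (f 1)]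
  have ha0 := norm_nonneg (f 0)
  have hb0 := norm_nonneg (f 1)
  have hcs := abs_real_inner_le_norm (f 0) (f 1)
  have ha := GeA_nsq (f 0)
  have hb := GeA_nsq (f 1)
  rw [GeA_inner] at hcs
  obtain ⟨p, hp⟩ : ∃ p, p = inner ℝ (f 0) t := ⟨_, rfl⟩
  obtain ⟨q, hq⟩ : ∃ q, q = inner ℝ (f 1) t := ⟨_, rfl⟩
  rw [← hp, ← hq]
  rw [GeA_inner] at hp hq
  have h1 : dt (f 0) (f 1) ^ 2 * (t 0 ^ 2 + t 1 ^ 2) =
      p ^ 2 * ‖f 1‖ ^ 2 + q ^ 2 * ‖f 0‖ ^ 2 - 2 * (p * q) * (f 0 0 * f 1 0 + f 0 1 * f 1 1) := by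
    rw [ha, hb, hp, hq]
    unfold dt
    ring
  have h2 : -(2 * (p * q) * (f 0 0 * f 1 0 + f 0 1 * f 1 1)) ≤
      2 * (|p| * |q|) * (‖f 0‖ * ‖f 1‖) := by
    have h3 : -(2 * (p * q) * (f 0 0 * f 1 0 + f 0 1 * f 1 1)) ≤
        |2 * (p * q) * (f 0 0 * f 1 0 + f 0 1 * f 1 1)| := neg_le_abs _
    rw [abs_mul, abs_mul, abs_mul, abs_two] at h3
    refine h3.trans ?_
    have h4 : 0 ≤ 2 * (|p| * |q|) := by positivity
    exact mul_le_mul_of_nonneg_left hcs h4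
  have h5 : dt (f 0) (f 1) ^ 2 * (t 0 ^ 2 + t 1 ^ 2) ≤ (|p| * ‖f 1‖ + |q| * ‖f 0‖) ^ 2 := by
    rw [h1]
    have h6 : (|p| * ‖f 1‖ + |q| * ‖f 0‖) ^ 2 = |p| ^ 2 * ‖f 1‖ ^ 2 + |q| ^ 2 * ‖f 0‖ ^ 2 +
      2 * (|p| * |q|) * (‖f 0‖ * ‖f 1‖) := by ring
    rw [h6, sq_abs, sq_abs]
    linarith
  refine h5.trans ?_
  have h7 : |p| * ‖f 1‖ + |q| * ‖f 0‖ ≤ |p| + |q| := by
    have := mul_le_of_le_one_right (abs_nonneg p) hb1
    have := mul_le_of_le_one_right (abs_nonneg q) ha1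
    linarith
  exact pow_le_pow_left₀ (by positivity) h7 2

theorem dt_le {f : Fin 3 → E} (hf : Frame f) : |dt (f 0) (f 1)| ≤ 1 := by
  have ha1 : ‖f 0‖ ≤ 1 := by linarith [GeA_le hf 0, norm_nonneg (f 0)]
  have hb1 : ‖f 1‖ ≤ 1 := by linarith [GeA_le hf 1, norm_nonneg (f 1)]
  have ha0 := norm_nonneg (f 0)
  have hb0 := norm_nonneg (f 1)
  have ha := GeA_nsq (f 0)
  have hb := GeA_nsq (f 1)
  rw [← sq_le_one_iff_abs_le_one]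
  have h1 : dt (f 0) (f 1) ^ 2 ≤ ‖f 0‖ ^ 2 * ‖f 1‖ ^ 2 := by
    rw [ha, hb]
    unfold dt
    nlinarith [sq_nonneg (f 0 0 * f 1 0 + f 0 1 * f 1 1)]
  have h2 : ‖f 0‖ ^ 2 ≤ 1 := pow_le_one₀ ha0 ha1
  have h3 : ‖f 1‖ ^ 2 ≤ 1 := pow_le_one₀ hb0 hb1
  have h4 : ‖f 0‖ ^ 2 * ‖f 1‖ ^ 2 ≤ 1 := mul_le_one₀ h2 (by positivity) h3
  linarith

end Pool.Agent.H86.TS
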