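import Pool.Agent.H86.TS.Geo

/-!
ROW GeV (80 lines).  The area of a parallelogram.  Let `φ : E →ₗ E`, `φ t = ![⟪u,t⟫, ⟪v,t⟫]` (`Matrix.toLin'`/`Matrix.toEuclideanLin`
of `!![u 0, u 1; v 0, v 1]`), `det φ = dt u v`.  The set is `φ ⁻¹' R`, `R = {s | a ≤ s 0 ≤ a', b ≤ s 1 ≤ b'}`, and
`volume (φ ⁻¹' R) = ofReal |det φ|⁻¹ * volume R` (`MeasureTheory.Measure.addHaar_preimage_linearMap`), `volume R = (a'-a)(b'-b)`
(`EuclideanSpace.volume_preserving_symm_measurableEquiv_toLp` or similar, `Real.volume_pi_Icc`/`MeasureTheory.Measure.pi_pi`; `R` is the preimage of `Set.Icc ![a,b] ![a',b']`).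
`par_closed`: `IsClosed` (continuous functions), hence measurable.
-/

namespace Pool.Agent.H86.TS

open MeasureTheory

/-- a parallelogram -/
def par (u v : E) (a a' b b' : ℝ) : Set E :=
  {t | a ≤ inner ℝ u t ∧ inner ℝ u t ≤ a' ∧ b ≤ inner ℝ v t ∧ inner ℝ v t ≤ b'}

theorem par_closed (u v : E) (a a' b b' : ℝ) : IsClosed (par u v a a' b b') := by
  have hu : Continuous fun t : E => (inner ℝ u t : ℝ) := continuous_const.inner continuous_id
  have hv : Continuous fun t : E => (inner ℝ v t : ℝ) := continuous_const.inner continuous_id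
  exact (isClosed_le continuous_const hu).inter ((isClosed_le hu continuous_const).inter
    ((isClosed_le continuous_const hv).inter (isClosed_le hv continuous_const)))

theorem vol_par {u v : E} (h : dt u v ≠ 0) {a a' b b' : ℝ} (ha : a ≤ a') (hb : b ≤ b') :
    volume (par u v a a' b b') = ENNReal.ofReal ((a' - a) * (b' - b) / |dt u v|) := by
  let A : Matrix (Fin 2) (Fin 2) ℝ := !![u 0, u 1; v 0, v 1]
  let φ : E →ₗ[ℝ] E := Matrix.toEuclideanLin A
  have hdet : LinearMap.det φ = dt u v := by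
    have h1 : φ = Matrix.toLin (PiLp.basisFun 2 ℝ (Fin 2)) (PiLp.basisFun 2 ℝ (Fin 2)) A := by
      change Matrix.toEuclideanLin A = _
      rw [Matrix.toEuclideanLin_eq_toLin]
    rw [h1, LinearMap.det_toLin]
    simp only [A, Matrix.det_fin_two_of, dt]
  let R : Set E := (fun s : E => (WithLp.ofLp s : Fin 2 → ℝ)) ⁻¹' Set.Icc ![a, b] ![a', b']
  have hpre : par u v a a' b b' = φ ⁻¹' R := by
    ext t
    have e0 : (WithLp.ofLp (φ t) : Fin 2 → ℝ) 0 = inner ℝ u t := by
      simp [φ, A, Matrix.toEuclideanLin, Matrix.mulVec, dotProduct, Fin.sum_univ_two,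
        PiLp.inner_apply, mul_comm]
    have e1 : (WithLp.ofLp (φ t) : Fin 2 → ℝ) 1 = inner ℝ v t := by
      simp [φ, A, Matrix.toEuclideanLin, Matrix.mulVec, dotProduct, Fin.sum_univ_two,
        PiLp.inner_apply, mul_comm]
    simp only [par, R, Set.mem_setOf_eq, Set.mem_preimage, Set.mem_Icc, Pi.le_def, Fin.forall_fin_two,
      e0, e1, Matrix.cons_val_zero, Matrix.cons_val_one]
    tauto
  have hR : volume R = ENNReal.ofReal ((a' - a) * (b' - b)) := by
    have h1 := (PiLp.volume_preserving_ofLp (Fin 2)).measure_preimage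
      (s := Set.Icc ![a, b] ![a', b']) measurableSet_Icc.nullMeasurableSet
    have h2 : volume R = volume (Set.Icc ![a, b] ![a', b']) := h1
    rw [h2, Real.volume_Icc_pi, Fin.prod_univ_two, ENNReal.ofReal_mul (sub_nonneg.2 ha)]
    simp
  rw [hpre, Measure.addHaar_preimage_linearMap _ (by rw [hdet]; exact h), hR, hdet,
    ← ENNReal.ofReal_mul (abs_nonneg _), abs_inv]
  congr 1
  rw [div_eq_mul_inv, mul_comm]

end Pool.Agent.H86.TS
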