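import Pool.Agent.H86.TS.FiT
import Pool.Agent.H86.TS.GeA
import Pool.Agent.H86.TS.GeV

/-!
ROW AvA (200 lines).  Averaging over the windows `W_τ = {t | X τ ≤ X t ≤ X τ + L, Y τ ≤ Y t ≤ Y τ + L}`, `X = ⟪f 0, ·⟫`, `Y = ⟪f 1, ·⟫`,
`Z = ⟪f 2, ·⟫`, `X + Y + Z = 0`.  `p_i = ‖f i‖ = (1 - qq f i)/2`, `d = |dt (f 0) (f 1)|`.
For `D ∈ s` let `S_D = par (f 0) (f 1) (X o - L + p₁ r) (X o - p₁ r) (Y o - L + p₂ r) (Y o - p₂ r)`, the set of all `τ` with `D ⊆ W_τ`;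
its area is `(L - 2p₁r)(L - 2p₂r)/d ≥ (L-ρ)²/d` (`2p_i < 1` as `qq > 0`, `r ≤ ρ < L`; `vol_par`).
For every `τ`: the discs `D ∈ s` with `τ ∈ S_D` satisfy the hypotheses of `fiT` (window `[X τ, X τ + L] × [Y τ, Y τ + L]`, `M = 3ρ`;
`SepBy` passes to subsets of `s`), so `Σ_{D : τ ∈ S_D} r_D² ≤ K := TT f * (2 L L) + 3ρ (2 L)`.
If `τ ∈ S_D` then `|X (o - τ)|, |Y (o - τ)| ≤ L`, so `‖o - τ‖ ≤ 2L/d` (`frame_bound`), `‖τ‖ ≤ R' + 2L/d`.
Hence `Σ_D r_D² vol S_D = ∫ Σ_D r_D² 1_{S_D}(τ) dτ ≤ K vol(closedBall 0 (R' + 2L/d)) = K π (R' + 2L/d)²`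
(`lintegral_finsetSum`, `lintegral_indicator`, `EuclideanSpace.volume_closedBall_fin_two` or `InnerProductSpace.volume_closedBall`; or in reals with
`integral_finset_sum`).  Multiply by `d` (`TT_dt` is not needed here).
-/

namespace Pool.Agent.H86.TS

open MeasureTheory

theorem ava_mem {f : Fin 3 → E} (hf : Frame f) {R' L p₁ p₂ r : ℝ} (hp₁ : 0 ≤ p₁ * r)
    (hp₂ : 0 ≤ p₂ * r) (hL : 0 < L) {o τ : E} (ho : ‖o‖ ≤ R')
    (h : τ ∈ par (f 0) (f 1) (inner ℝ (f 0) o - L + p₁ * r) (inner ℝ (f 0) o - p₁ * r)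
      (inner ℝ (f 1) o - L + p₂ * r) (inner ℝ (f 1) o - p₂ * r)) :
    τ ∈ Metric.closedBall (0 : E) (R' + 2 * L / |dt (f 0) (f 1)|) := by
  obtain ⟨h1, h2, h3, h4⟩ := h
  have hd : 0 < |dt (f 0) (f 1)| := abs_pos.2 hf.det
  have hb := frame_bound hf (o - τ)
  rw [inner_sub_right, inner_sub_right] at hb
  have h5 : |inner ℝ (f 0) o - inner ℝ (f 0) τ| ≤ L := by
    rw [abs_le]
    constructor <;> linarith
  have h6 : |inner ℝ (f 1) o - inner ℝ (f 1) τ| ≤ L := by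
    rw [abs_le]
    constructor <;> linarith
  have h7 : ‖o - τ‖ ≤ 2 * L / |dt (f 0) (f 1)| := by
    rw [le_div_iff₀ hd]
    linarith
  rw [mem_closedBall_zero_iff]
  have h8 : ‖τ‖ ≤ ‖o‖ + ‖o - τ‖ := by
    have h9 : τ = o - (o - τ) := by abel
    calc ‖τ‖ = ‖o - (o - τ)‖ := by rw [← h9]
      _ ≤ _ := norm_sub_le _ _
  linarith

theorem ava_point {ι : Type*} {f : Fin 3 → E} (hf : Frame f) (s : Finset ι) (o : ι → E)
    (r : ι → ℝ) {ρ L : ℝ} (hr0 : ∀ D ∈ s, 0 < r D) (hρ : ∀ D ∈ s, r D ≤ ρ) (hρ0 : 0 ≤ ρ)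
    (hL : ρ < L)
    (hsep : ∀ D ∈ s, ∀ D' ∈ s, D ≠ D' → ∃ i : Fin 3,
      SepBy s ‖f i‖ (fun D => inner ℝ (f i) (o D)) r D D') (τ : E) (s' : Finset ι)
    (hs' : s' ⊆ s) (hpar : ∀ D ∈ s', τ ∈ par (f 0) (f 1) (inner ℝ (f 0) (o D) - L + ‖f 0‖ * r D)
      (inner ℝ (f 0) (o D) - ‖f 0‖ * r D) (inner ℝ (f 1) (o D) - L + ‖f 1‖ * r D)
      (inner ℝ (f 1) (o D) - ‖f 1‖ * r D)) :
    ∑ D ∈ s', (r D) ^ 2 ≤ TT f * (2 * L * L) + 3 * ρ * (2 * L) := by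
  have hC := frame_cst hf
  have hq : ∀ i, (1 - qq f i) / 2 = ‖f i‖ := fun i => by unfold qq; ring
  have hLp : 0 < L := lt_of_le_of_lt hρ0 hL
  have hsub : ∀ (p : ℝ) (x : ι → ℝ) (D D' : ι), SepBy s p x r D D' → SepBy s' p x r D D' := by
    rintro p x D D' ⟨t, h1, h2⟩
    exact ⟨t, fun D hD => h1 D (hs' hD), h2⟩
  have h := fiT hC (M := 3 * ρ) (by positivity) (A₀ := inner ℝ (f 0) τ)
    (A₁ := inner ℝ (f 0) τ + L) (B₀ := inner ℝ (f 1) τ) (B₁ := inner ℝ (f 1) τ + L)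
    (by linarith) (by linarith) s' (fun D => inner ℝ (f 0) (o D)) (fun D => inner ℝ (f 1) (o D))
    (fun D => inner ℝ (f 2) (o D)) r ?_ (fun D hD => hr0 D (hs' hD)) ?_ ?_ ?_ ?_ ?_ ?_
  · have h1 : inner ℝ (f 0) τ + L - inner ℝ (f 0) τ = L := by ring
    have h2 : inner ℝ (f 1) τ + L - inner ℝ (f 1) τ = L := by ring
    rw [h1, h2] at h
    linarith
  · intro D _
    show inner ℝ (f 0) (o D) + inner ℝ (f 1) (o D) + inner ℝ (f 2) (o D) = 0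
    rw [← inner_add_left, ← inner_add_left, hf.sum, inner_zero_left]
  · intro D hD
    have h1 := hρ D (hs' hD)
    have h2 := hr0 D (hs' hD)
    nlinarith
  · intro D hD
    show inner ℝ (f 0) τ + (1 - qq f 0) / 2 * r D ≤ inner ℝ (f 0) (o D)
    rw [hq]
    linarith [(hpar D hD).2.1]
  · intro D hD
    show inner ℝ (f 0) (o D) + (1 - qq f 0) / 2 * r D ≤ inner ℝ (f 0) τ + L
    rw [hq]
    linarith [(hpar D hD).1]
  · intro D hD
    show inner ℝ (f 1) τ + (1 - qq f 1) / 2 * r D ≤ inner ℝ (f 1) (o D)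
    rw [hq]
    linarith [(hpar D hD).2.2.2]
  · intro D hD
    show inner ℝ (f 1) (o D) + (1 - qq f 1) / 2 * r D ≤ inner ℝ (f 1) τ + L
    rw [hq]
    linarith [(hpar D hD).2.2.1]
  · intro D hD D' hD' hne
    obtain ⟨i, hi⟩ := hsep D (hs' hD) D' (hs' hD') hne
    have hi' := hsub _ _ _ _ hi
    fin_cases i
    · exact Or.inl (by rw [hq]; exact hi')
    · exact Or.inr (Or.inl (by rw [hq]; exact hi'))
    · exact Or.inr (Or.inr (by rw [hq]; exact hi'))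

theorem avg {ι : Type*} {f : Fin 3 → E} (hf : Frame f) (s : Finset ι) (o : ι → E) (r : ι → ℝ)
    {R' ρ L : ℝ} (hr0 : ∀ D ∈ s, 0 < r D) (hρ : ∀ D ∈ s, r D ≤ ρ) (hρ0 : 0 ≤ ρ) (hL : ρ < L)
    (ho : ∀ D ∈ s, ‖o D‖ ≤ R')
    (hsep : ∀ D ∈ s, ∀ D' ∈ s, D ≠ D' → ∃ i : Fin 3,
      SepBy s ‖f i‖ (fun D => inner ℝ (f i) (o D)) r D D') :
    (∑ D ∈ s, (r D) ^ 2) * (L - ρ) ^ 2 ≤
      |dt (f 0) (f 1)| * (TT f * (2 * L * L) + 3 * ρ * (2 * L)) *
        (Real.pi * (R' + 2 * L / |dt (f 0) (f 1)|) ^ 2) := by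
  classical
  have hC := frame_cst hf
  have hd : 0 < |dt (f 0) (f 1)| := abs_pos.2 hf.det
  have hLp : 0 < L := lt_of_le_of_lt hρ0 hL
  have hT := hC.T0
  have hK : 0 ≤ TT f * (2 * L * L) + 3 * ρ * (2 * L) := by positivity
  rcases s.eq_empty_or_nonempty with rfl | ⟨D₀, hD₀⟩
  · rw [Finset.sum_empty, zero_mul]
    positivity
  have hR' : 0 ≤ R' := (norm_nonneg _).trans (ho D₀ hD₀)
  have hR'' : 0 ≤ R' + 2 * L / |dt (f 0) (f 1)| := by positivity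
  set K := TT f * (2 * L * L) + 3 * ρ * (2 * L) with hKdef
  set RR := R' + 2 * L / |dt (f 0) (f 1)| with hRR
  set S : ι → Set E := fun D => par (f 0) (f 1) (inner ℝ (f 0) (o D) - L + ‖f 0‖ * r D)
      (inner ℝ (f 0) (o D) - ‖f 0‖ * r D) (inner ℝ (f 1) (o D) - L + ‖f 1‖ * r D)
      (inner ℝ (f 1) (o D) - ‖f 1‖ * r D) with hS
  have hp : ∀ i, 2 * ‖f i‖ ≤ 1 := by
    intro i
    have h0 := hC.h1
    have h1 := hC.h2
    have h2 := hC.h3
    unfold qq at h0 h1 h2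
    fin_cases i
    · show 2 * ‖f 0‖ ≤ 1
      linarith
    · show 2 * ‖f 1‖ ≤ 1
      linarith
    · show 2 * ‖f 2‖ ≤ 1
      linarith
  have hpr : ∀ i, ∀ D ∈ s, 2 * ‖f i‖ * r D ≤ ρ := by
    intro i D hD
    have h1 := hp i
    have h2 := (hr0 D hD).le
    have h3 : 2 * ‖f i‖ * r D ≤ 1 * r D := mul_le_mul_of_nonneg_right h1 h2
    linarith [hρ D hD]
  have hvol : ∀ D ∈ s, ENNReal.ofReal ((L - ρ) ^ 2 / |dt (f 0) (f 1)|) ≤ volume (S D) := by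
    intro D hD
    have h0 := hpr 0 D hD
    have h1 := hpr 1 D hD
    have h2 := vol_par hf.det (a := inner ℝ (f 0) (o D) - L + ‖f 0‖ * r D)
      (a' := inner ℝ (f 0) (o D) - ‖f 0‖ * r D) (b := inner ℝ (f 1) (o D) - L + ‖f 1‖ * r D)
      (b' := inner ℝ (f 1) (o D) - ‖f 1‖ * r D) (by linarith) (by linarith)
    show _ ≤ volume (par _ _ _ _ _ _)
    rw [h2]
    refine ENNReal.ofReal_le_ofReal ?_
    refine div_le_div_of_nonneg_right ?_ hd.le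
    have h3 : L - ρ ≤ inner ℝ (f 0) (o D) - ‖f 0‖ * r D -
      (inner ℝ (f 0) (o D) - L + ‖f 0‖ * r D) := by linarith
    have h4 : L - ρ ≤ inner ℝ (f 1) (o D) - ‖f 1‖ * r D -
      (inner ℝ (f 1) (o D) - L + ‖f 1‖ * r D) := by linarith
    rw [sq]
    exact mul_le_mul h3 h4 (by linarith) (by linarith)
  have hmeas : ∀ D, MeasurableSet (S D) := fun D => (par_closed _ _ _ _ _ _).measurableSet
  have hint : ∑ D ∈ s, ENNReal.ofReal ((r D) ^ 2) * volume (S D) ≤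
      ENNReal.ofReal K * volume (Metric.closedBall (0 : E) RR) := by
    have h1 : ∀ D ∈ s, ENNReal.ofReal ((r D) ^ 2) * volume (S D) =
        ∫⁻ τ, (S D).indicator (fun _ => ENNReal.ofReal ((r D) ^ 2)) τ := fun D _ => by
      rw [lintegral_indicator_const (hmeas D)]
    rw [Finset.sum_congr rfl h1, ← lintegral_finsetSum _
      (fun D _ => measurable_const.indicator (hmeas D)),
      ← lintegral_indicator_const measurableSet_closedBall]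
    refine lintegral_mono fun τ => ?_
    have h2 : ∑ D ∈ s, (S D).indicator (fun _ => ENNReal.ofReal ((r D) ^ 2)) τ =
        ENNReal.ofReal (∑ D ∈ s with τ ∈ S D, (r D) ^ 2) := by
      rw [ENNReal.ofReal_sum_of_nonneg (fun D _ => sq_nonneg _), Finset.sum_filter]
      exact Finset.sum_congr rfl fun D _ => Set.indicator_apply _ _ _
    show ∑ D ∈ s, (S D).indicator (fun _ => ENNReal.ofReal ((r D) ^ 2)) τ ≤ _
    rw [h2]
    by_cases hτ : τ ∈ Metric.closedBall (0 : E) RR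
    · rw [Set.indicator_of_mem hτ]
      refine ENNReal.ofReal_le_ofReal ?_
      exact ava_point hf s o r hr0 hρ hρ0 hL hsep τ _ (Finset.filter_subset _ _)
        fun D hD => (Finset.mem_filter.1 hD).2
    · have h3 : (s.filter fun D => τ ∈ S D) = ∅ := by
        refine Finset.filter_eq_empty_iff.2 fun D hD h4 => hτ ?_
        exact ava_mem hf (mul_nonneg (norm_nonneg _) (hr0 D hD).le)
          (mul_nonneg (norm_nonneg _) (hr0 D hD).le) hLp (ho D hD) h4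
      rw [h3, Finset.sum_empty, ENNReal.ofReal_zero]
      exact bot_le
  have hlow : ENNReal.ofReal ((∑ D ∈ s, (r D) ^ 2) * ((L - ρ) ^ 2 / |dt (f 0) (f 1)|)) ≤
      ENNReal.ofReal (K * (Real.pi * RR ^ 2)) := by
    calc ENNReal.ofReal ((∑ D ∈ s, (r D) ^ 2) * ((L - ρ) ^ 2 / |dt (f 0) (f 1)|))
        = ∑ D ∈ s, ENNReal.ofReal ((r D) ^ 2) *
            ENNReal.ofReal ((L - ρ) ^ 2 / |dt (f 0) (f 1)|) := by
          rw [ENNReal.ofReal_mul (Finset.sum_nonneg fun D _ => sq_nonneg _),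
            ENNReal.ofReal_sum_of_nonneg (fun D _ => sq_nonneg _), Finset.sum_mul]
      _ ≤ ∑ D ∈ s, ENNReal.ofReal ((r D) ^ 2) * volume (S D) :=
          Finset.sum_le_sum fun D hD => mul_le_mul_right (hvol D hD) _
      _ ≤ _ := hint
      _ = _ := by
          rw [EuclideanSpace.volume_closedBall_fin_two, ENNReal.ofReal_mul hK,
            ENNReal.ofReal_mul Real.pi_pos.le, ENNReal.ofReal_pow hR'']
          exact congrArg _ (mul_comm _ _)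
  have h9 := (ENNReal.ofReal_le_ofReal_iff (by positivity)).1 hlow
  have h10 := mul_le_mul_of_nonneg_left h9 hd.le
  have h11 : |dt (f 0) (f 1)| * ((∑ D ∈ s, (r D) ^ 2) * ((L - ρ) ^ 2 / |dt (f 0) (f 1)|)) =
      (∑ D ∈ s, (r D) ^ 2) * (L - ρ) ^ 2 := by
    field_simp
  rw [h11] at h10
  calc _ ≤ _ := h10
    _ = _ := by ring

end Pool.Agent.H86.TS
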