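import Pool.Agent.H86.TS.Geo

/-!
ROW CoA (90 lines).  Discs and half planes.
* `le_iff`: `∀ x ∈ closedBall o r, ⟪n,x⟫ ≤ t` iff `⟪n,o⟫ + ‖n‖ r ≤ t` (`r ≥ 0`): Cauchy-Schwarz; for the converse take
  `x = o + (r/‖n‖) • n` (if `n = 0` trivial).
* `ge_iff`: apply `le_iff` to `-n`, `-t`.
* `avoid_iff`: `∀ x ∈ ball o r, ⟪n,x⟫ ≠ t` iff `⟪n,o⟫ + ‖n‖ r ≤ t` or `t ≤ ⟪n,o⟫ - ‖n‖ r` (`r > 0`, `n ≠ 0`): if neither holds take
  `x = o + ((t - ⟪n,o⟫)/‖n‖²) • n`; conversely Cauchy-Schwarz with `‖x - o‖ < r` (strict since `‖n‖ > 0`).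
* `smul` versions: replacing `(n, t)` by `(c n, c t)`, `c ≠ 0`: if `c > 0` the sides are kept, if `c < 0` they are exchanged; avoidance is kept.
-/

namespace Pool.Agent.H86.TS

theorem CoA_split (n o x : E) : inner ℝ n x = inner ℝ n o + inner ℝ n (x - o) := by
  rw [inner_sub_right]
  ring

theorem CoA_abs (n o x : E) : |inner ℝ n (x - o)| ≤ ‖n‖ * dist x o := by
  rw [dist_eq_norm]
  exact abs_real_inner_le_norm n (x - o)

theorem CoA_at (n o : E) (s : ℝ) : inner ℝ n (o + s • n) = inner ℝ n o + s * ‖n‖ ^ 2 := by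
  rw [inner_add_right, inner_smul_right, real_inner_self_eq_norm_sq]

theorem CoA_dist (n o : E) (s : ℝ) : dist (o + s • n) o = |s| * ‖n‖ := by
  rw [dist_eq_norm, add_sub_cancel_left, norm_smul, Real.norm_eq_abs]

theorem le_iff (n o : E) {r t : ℝ} (hr : 0 ≤ r) :
    (∀ x ∈ Metric.closedBall o r, inner ℝ n x ≤ t) ↔ inner ℝ n o + ‖n‖ * r ≤ t := by
  constructor
  · intro h
    by_cases hn : n = 0
    · have h1 := h o (Metric.mem_closedBall_self hr)
      rw [hn, inner_zero_left] at h1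
      rw [hn, inner_zero_left, norm_zero, zero_mul, add_zero]
      exact h1
    · have hn0 : 0 < ‖n‖ := norm_pos_iff.2 hn
      have h1 := h (o + (r / ‖n‖) • n) (by
        rw [Metric.mem_closedBall, CoA_dist, abs_of_nonneg (by positivity), div_mul_cancel₀ r hn0.ne'])
      rw [CoA_at] at h1
      have h2 : r / ‖n‖ * ‖n‖ ^ 2 = ‖n‖ * r := by
        field_simp
      rwa [h2] at h1
  · intro h x hx
    rw [Metric.mem_closedBall] at hx
    rw [CoA_split n o x]
    have h1 := (abs_le.1 (CoA_abs n o x)).2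
    have h2 := mul_le_mul_of_nonneg_left hx (norm_nonneg n)
    linarith

theorem ge_iff (n o : E) {r t : ℝ} (hr : 0 ≤ r) :
    (∀ x ∈ Metric.closedBall o r, t ≤ inner ℝ n x) ↔ t ≤ inner ℝ n o - ‖n‖ * r := by
  have h := le_iff (-n) o (t := -t) hr
  simp only [inner_neg_left, norm_neg] at h
  constructor
  · intro h1
    have h2 := h.1 (fun x hx => by
      have := h1 x hx
      linarith)
    linarith
  · intro h1 x hx
    have h2 := h.2 (by linarith) x hx
    linarith

theorem avoid_iff {n : E} (hn : n ≠ 0) (o : E) {r t : ℝ} (hr : 0 < r) :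
    (∀ x ∈ Metric.ball o r, inner ℝ n x ≠ t) ↔
      inner ℝ n o + ‖n‖ * r ≤ t ∨ t ≤ inner ℝ n o - ‖n‖ * r := by
  have hn0 : 0 < ‖n‖ := norm_pos_iff.2 hn
  constructor
  · intro h
    by_contra hcon
    push Not at hcon
    obtain ⟨h1, h2⟩ := hcon
    apply h (o + ((t - inner ℝ n o) / ‖n‖ ^ 2) • n)
    · rw [Metric.mem_ball, CoA_dist, abs_div, abs_of_nonneg (by positivity : (0 : ℝ) ≤ ‖n‖ ^ 2)]
      have h3 : |t - inner ℝ n o| / ‖n‖ ^ 2 * ‖n‖ = |t - inner ℝ n o| / ‖n‖ := by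
        field_simp
      rw [h3, div_lt_iff₀ hn0, abs_lt]
      constructor <;> linarith
    · rw [CoA_at]
      field_simp
      ring
  · intro h x hx
    rw [Metric.mem_ball] at hx
    have h1 := abs_le.1 (CoA_abs n o x)
    have h2 := mul_lt_mul_of_pos_left hx hn0
    have h3 := CoA_split n o x
    rcases h with h | h
    · intro h4
      linarith
    · intro h4
      linarith

theorem sep_smul {n o o' : E} {t r r' c : ℝ} (hc : c ≠ 0) (h : Sep n t o o' r r') :
    Sep (c • n) (c * t) o o' r r' ∨ Sep (c • n) (c * t) o' o r' r := by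
  have hin : ∀ x, inner ℝ (c • n) x = c * inner ℝ n x := fun x => real_inner_smul_left n x c
  rcases lt_or_gt_of_ne hc with hc | hc
  · right
    refine ⟨fun x hx => ?_, fun x hx => ?_⟩
    · rw [hin]
      exact mul_le_mul_of_nonpos_left (h.2 x hx) hc.le
    · rw [hin]
      exact mul_le_mul_of_nonpos_left (h.1 x hx) hc.le
  · left
    refine ⟨fun x hx => ?_, fun x hx => ?_⟩
    · rw [hin]
      exact mul_le_mul_of_nonneg_left (h.1 x hx) hc.le
    · rw [hin]
      exact mul_le_mul_of_nonneg_left (h.2 x hx) hc.le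

theorem avoid_smul {n o : E} {t r c : ℝ} (hc : c ≠ 0)
    (h : ∀ x ∈ Metric.ball o r, inner ℝ n x ≠ t) :
    ∀ x ∈ Metric.ball o r, inner ℝ (c • n) x ≠ c * t := by
  intro x hx h1
  rw [real_inner_smul_left] at h1
  exact h x hx (mul_left_cancel₀ hc h1)

end Pool.Agent.H86.TS
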