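import Pool.Agent.H86.TS.Geo

/-!
ROW DeR (90 lines).  Any three nonzero vectors are parallel to members of a pairwise independent triple.
`dt u v = 0` with `u, v ≠ 0` gives `u = c • v`, `c ≠ 0` (`par_of_dt`: take a coordinate `v i ≠ 0`, `c = u i / v i`).
For `u ≠ 0` let `Ju = ![-u 1, u 0]`; `dt u (Ju) = ‖u‖² ≠ 0`, `dt u (u + Ju) ≠ 0`, `dt (Ju) (u + Ju) ≠ 0`.  Cases:
* `n 0, n 1, n 2` pairwise independent: `n' = n`.
* all three parallel: `n' = (n 0, J n 0, n 0 + J n 0)`.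
* exactly two classes, say `u`, `v` independent: `n' = (u, v, u + v)`: `dt u (u+v) = dt u v`, `dt (u+v) v...`.
-/

namespace Pool.Agent.H86.TS

theorem DeR_ne {u : E} (hu : u ≠ 0) : u 0 ≠ 0 ∨ u 1 ≠ 0 := by
  by_contra h
  push Not at h
  apply hu
  ext i
  fin_cases i
  · exact h.1
  · exact h.2

theorem par_of_dt {u v : E} (hu : u ≠ 0) (hv : v ≠ 0) (h : dt u v = 0) :
    ∃ c : ℝ, c ≠ 0 ∧ u = c • v := by
  unfold dt at h
  have key : ∀ c : ℝ, u = c • v → c ≠ 0 := by
    intro c hc h0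
    apply hu
    rw [hc, h0, zero_smul]
  rcases DeR_ne hv with h0 | h1
  · have he : u = (u 0 / v 0) • v := by
      ext i
      fin_cases i
      · change u 0 = (u 0 / v 0) * v 0
        field_simp
      · change u 1 = (u 0 / v 0) * v 1
        field_simp
        linarith
    exact ⟨_, key _ he, he⟩
  · have he : u = (u 1 / v 1) • v := by
      ext i
      fin_cases i
      · change u 0 = (u 1 / v 1) * v 0
        field_simp
        linarith
      · change u 1 = (u 1 / v 1) * v 1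
        field_simp
    exact ⟨_, key _ he, he⟩

theorem DeR_key (n : Fin 3 → E) (u v : E) (huv : dt u v ≠ 0)
    (h : ∀ i, (∃ c : ℝ, c ≠ 0 ∧ n i = c • u) ∨ (∃ c : ℝ, c ≠ 0 ∧ n i = c • v)) :
    ∃ n' : Fin 3 → E, dt (n' 0) (n' 1) ≠ 0 ∧ dt (n' 1) (n' 2) ≠ 0 ∧ dt (n' 2) (n' 0) ≠ 0 ∧
      ∀ i, ∃ (j : Fin 3) (c : ℝ), c ≠ 0 ∧ n i = c • n' j := by
  refine ⟨![u, v, u + v], ?_, ?_, ?_, ?_⟩
  · exact huv
  · change dt v (u + v) ≠ 0
    intro h0
    apply huv
    unfold dt at *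
    simp only [PiLp.add_apply] at h0
    linarith
  · change dt (u + v) u ≠ 0
    intro h0
    apply huv
    unfold dt at *
    simp only [PiLp.add_apply] at h0
    linarith
  · intro i
    rcases h i with ⟨c, hc, he⟩ | ⟨c, hc, he⟩
    · exact ⟨0, c, hc, he⟩
    · exact ⟨1, c, hc, he⟩

theorem DeR_symm {u v : E} (h : dt u v = 0) : dt v u = 0 := by
  unfold dt at *
  linarith

theorem DeR_J {u : E} (hu : u ≠ 0) : ∃ v : E, dt u v ≠ 0 := by
  refine ⟨!₂[-u 1, u 0], ?_⟩
  have h1 : dt u !₂[-u 1, u 0] = u 0 * u 0 + u 1 * u 1 := by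
    unfold dt
    change u 0 * u 0 - u 1 * (-u 1) = _
    ring
  rw [h1]
  rcases DeR_ne hu with h | h
  · have := mul_self_pos.2 h
    have := mul_self_nonneg (u 1)
    positivity
  · have := mul_self_pos.2 h
    have := mul_self_nonneg (u 0)
    positivity

theorem exists_triple (n : Fin 3 → E) (hn : ∀ i, n i ≠ 0) :
    ∃ n' : Fin 3 → E, dt (n' 0) (n' 1) ≠ 0 ∧ dt (n' 1) (n' 2) ≠ 0 ∧ dt (n' 2) (n' 0) ≠ 0 ∧
      ∀ i, ∃ (j : Fin 3) (c : ℝ), c ≠ 0 ∧ n i = c • n' j := by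
  have hself : ∀ u : E, ∃ c : ℝ, c ≠ 0 ∧ u = c • u := fun u => ⟨1, one_ne_zero, (one_smul _ _).symm⟩
  by_cases h01 : dt (n 0) (n 1) = 0
  · by_cases h12 : dt (n 1) (n 2) = 0
    · obtain ⟨v, hv⟩ := DeR_J (hn 1)
      refine DeR_key n (n 1) v hv ?_
      intro i
      left
      fin_cases i
      · exact par_of_dt (hn 0) (hn 1) h01
      · exact hself _
      · exact par_of_dt (hn 2) (hn 1) (DeR_symm h12)
    · refine DeR_key n (n 1) (n 2) h12 ?_
      intro i
      fin_cases i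
      · exact Or.inl (par_of_dt (hn 0) (hn 1) h01)
      · exact Or.inl (hself _)
      · exact Or.inr (hself _)
  · by_cases h12 : dt (n 1) (n 2) = 0
    · refine DeR_key n (n 0) (n 1) h01 ?_
      intro i
      fin_cases i
      · exact Or.inl (hself _)
      · exact Or.inr (hself _)
      · exact Or.inr (par_of_dt (hn 2) (hn 1) (DeR_symm h12))
    · by_cases h20 : dt (n 2) (n 0) = 0
      · refine DeR_key n (n 0) (n 1) h01 ?_
        intro i
        fin_cases i
        · exact Or.inl (hself _)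
        · exact Or.inr (hself _)
        · exact Or.inl (par_of_dt (hn 2) (hn 0) h20)
      · exact ⟨n, h01, h12, h20, fun i => ⟨i, 1, one_ne_zero, (one_smul _ _).symm⟩⟩

end Pool.Agent.H86.TS
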