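import Mathlib

/-!
MP_887a8d_co (totally separable circle packings), helper86: definitions for the finite inequality.
Scaled coordinates: the plane has three linear coordinates `X + Y + Z = 0`; the lines of the three
directions are `X = a`, `Y = b`, `Z = c`; a disc of radius `r` and centre `(x, y, z)` avoids the
line `X = a` iff `|x - a| ≥ (1 - q₁) / 2 * r` etc., where `q₁ + q₂ + q₃ = 1`.
-/

namespace Pool.Agent.H86.TS

/-- positive part -/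
def pp (t : ℝ) : ℝ := max t 0

/-- square of the positive part -/
def p2 (t : ℝ) : ℝ := (max t 0) ^ 2

/-- the (normalised) area of the cell `a₁ < X < a₂, b₁ < Y < b₂, c₁ < Z < c₂` -/
def BB (a₁ a₂ b₁ b₂ c₁ c₂ : ℝ) : ℝ :=
  p2 (-(a₁ + b₁ + c₁)) - p2 (-(a₂ + b₁ + c₁)) - p2 (-(a₁ + b₂ + c₁)) - p2 (-(a₁ + b₁ + c₂))
    + p2 (-(a₂ + b₂ + c₁)) + p2 (-(a₂ + b₁ + c₂)) + p2 (-(a₁ + b₂ + c₂)) - p2 (-(a₂ + b₂ + c₂))

/-- truncated square of the length of an edge -/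
noncomputable def gM (M h v w : ℝ) : ℝ := if 0 < h ∧ h ≤ v ∧ h ≤ w then (min h M) ^ 2 else 0

/-- the flow through the line `X = a` (also used for the other two directions) -/
noncomputable def GG (M a b₁ b₂ c₁ c₂ : ℝ) : ℝ :=
  gM M (a + b₂ + c₂) (b₂ - b₁) (c₂ - c₁) - gM M (-(a + b₁ + c₁)) (b₂ - b₁) (c₂ - c₁)

/-- the length of the part of the line `X = a` in `b₁ < Y < b₂, c₁ < Z < c₂` -/
def LL (a b₁ b₂ c₁ c₂ : ℝ) : ℝ :=
  pp (-(a + b₁ + c₁)) - pp (-(a + b₂ + c₁)) - pp (-(a + b₁ + c₂)) + pp (-(a + b₂ + c₂))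

/-- the right hand side of the local inequality, for a cell -/
noncomputable def RH (T M a₁ a₂ b₁ b₂ c₁ c₂ : ℝ) : ℝ :=
  T * BB a₁ a₂ b₁ b₂ c₁ c₂ + 1 / 8 * (GG M a₁ b₁ b₂ c₁ c₂ - GG M a₂ b₁ b₂ c₁ c₂
    + GG M b₁ a₁ a₂ c₁ c₂ - GG M b₂ a₁ a₂ c₁ c₂ + GG M c₁ a₁ a₂ b₁ b₂ - GG M c₂ a₁ a₂ b₁ b₂)

/-- `BB` in terms of `H = -(a₁+b₁+c₁)` and the widths of the three strips -/
def Bf (H U V W : ℝ) : ℝ :=
  p2 H - p2 (H - U) - p2 (H - V) - p2 (H - W) + p2 (H - U - V) + p2 (H - U - W) + p2 (H - V - W)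
    - p2 (H - U - V - W)

/-- the sum of the flows in terms of `H = -(a₁+b₁+c₁)`, `H' = a₂+b₂+c₂` and the widths -/
noncomputable def NF (M H H' U V W : ℝ) : ℝ :=
  (gM M (H' - U) V W - gM M H V W - gM M H' V W + gM M (H - U) V W)
    + (gM M (H' - V) U W - gM M H U W - gM M H' U W + gM M (H - V) U W)
    + (gM M (H' - W) U V - gM M H U V - gM M H' U V + gM M (H - W) U V)

/-- the constants: `T = 11 / (24 √3 √(q₁q₂q₃))` -/
structure Cst (q₁ q₂ q₃ T : ℝ) : Prop where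
  h1 : 0 < q₁
  h2 : 0 < q₂
  h3 : 0 < q₃
  sum : q₁ + q₂ + q₃ = 1
  T0 : 0 < T
  T2 : 1728 * (q₁ * q₂ * q₃) * T ^ 2 = 121

/-- a disc of radius `r` with centre `(x, y, z)` lies in the cell -/
structure InCell (q₁ q₂ q₃ a₁ a₂ b₁ b₂ c₁ c₂ x y z r : ℝ) : Prop where
  r0 : 0 ≤ r
  sum : x + y + z = 0
  xa : a₁ + (1 - q₁) / 2 * r ≤ x
  xb : x + (1 - q₁) / 2 * r ≤ a₂
  ya : b₁ + (1 - q₂) / 2 * r ≤ y
  yb : y + (1 - q₂) / 2 * r ≤ b₂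
  za : c₁ + (1 - q₃) / 2 * r ≤ z
  zb : z + (1 - q₃) / 2 * r ≤ c₂

end Pool.Agent.H86.TS
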