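import Pool.Agent.H86.TS.Defs

/-!
ROW Tel (150 lines).  Telescoping.  `Finset.sum_range_succ`, induction on `m` (or `Finset.sum_range_sub`).
* `sum_BB`: `BB` is a triple difference of `F a b c = p2 (-(a+b+c))`: sum over `i < m` first for fixed `b, c`
  (`BB a₁ a₂ ..` + `BB a₂ a₃ .. = BB a₁ a₃ ..`: lemma by `unfold BB; ring`), then over `j`, then over `k`.
* `sum_LL`: the same for `LL`.
* `sum_GG`: for fixed `b, c`: `Σ_{i<m} (GG M (a i) .. - GG M (a (i+1)) ..) = GG M (a 0) .. - GG M (a m) ..`.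
* `LL_nonneg`, `LL_le`: `pp` is monotone and 1-Lipschitz: `LL a b₁ b₂ c₁ c₂ = [pp s - pp (s - v)] - [pp (s-w) - pp (s-v-w)]`
  with `s = -(a+b₁+c₁)`, `v = b₂-b₁ ≥ 0`, `w = c₂-c₁ ≥ 0`; the first bracket is in `[0, v]`, the second is in `[0, first]`.
  (cases on the signs: `pp`, `max_def`, `split_ifs`, linarith.)
* `gM_le_LL1`: `h = a+b₂+c₂`; if `0 < h ≤ v, w` then `LL a b₁ b₂ c₁ c₂ = h` (the four arguments are `v+w-h`, `w-h`, `v-h`, `-h`)
  and `(min h M)² ≤ M h`; otherwise the left side is `0`.  `gM_le_LL2`: `h = -(a+b₁+c₁)`: arguments `h`, `h-v`, `h-w`, `h-v-w`: `LL = h`.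
* `tel_main`: sum of `RH` over all cells: the `BB` part is `T * BB (a 0) (a m) ...`; the `X`-flow part is
  `Σ_j Σ_k (GG M (a 0) .. - GG M (a m) ..) ≤ Σ_j Σ_k (M LL (a 0) .. + M LL (a m) ..) ≤ 2 M (b n - b 0)` (drop the negative parts of `GG`);
  the `Y`-flow part: `GG M (b 0) (a i) (a (i+1)) (c k) (c (k+1))`, bounded by `2 M (a m - a 0)`; the `Z`-flow part by `2 M (a m - a 0)`.
-/

namespace Pool.Agent.H86.TS

theorem Tel_BBc (a₁ a₂ b₁ b₂ : ℝ) (c : ℕ → ℝ) (l : ℕ) :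
    ∑ k ∈ Finset.range l, BB a₁ a₂ b₁ b₂ (c k) (c (k + 1)) = BB a₁ a₂ b₁ b₂ (c 0) (c l) := by
  induction l with
  | zero => rw [Finset.sum_range_zero]; unfold BB; ring
  | succ l ih => rw [Finset.sum_range_succ, ih]; unfold BB; ring

theorem Tel_BBb (a₁ a₂ c₁ c₂ : ℝ) (b : ℕ → ℝ) (l : ℕ) :
    ∑ k ∈ Finset.range l, BB a₁ a₂ (b k) (b (k + 1)) c₁ c₂ = BB a₁ a₂ (b 0) (b l) c₁ c₂ := by
  induction l with
  | zero => rw [Finset.sum_range_zero]; unfold BB; ring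
  | succ l ih => rw [Finset.sum_range_succ, ih]; unfold BB; ring

theorem Tel_BBa (b₁ b₂ c₁ c₂ : ℝ) (a : ℕ → ℝ) (l : ℕ) :
    ∑ k ∈ Finset.range l, BB (a k) (a (k + 1)) b₁ b₂ c₁ c₂ = BB (a 0) (a l) b₁ b₂ c₁ c₂ := by
  induction l with
  | zero => rw [Finset.sum_range_zero]; unfold BB; ring
  | succ l ih => rw [Finset.sum_range_succ, ih]; unfold BB; ring

theorem sum_BB (a b c : ℕ → ℝ) (m n l : ℕ) :
    ∑ i ∈ Finset.range m, ∑ j ∈ Finset.range n, ∑ k ∈ Finset.range l,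
      BB (a i) (a (i + 1)) (b j) (b (j + 1)) (c k) (c (k + 1)) =
    BB (a 0) (a m) (b 0) (b n) (c 0) (c l) := by
  simp only [Tel_BBc, Tel_BBb, Tel_BBa]

theorem Tel_LLc (x b₁ b₂ : ℝ) (c : ℕ → ℝ) (l : ℕ) :
    ∑ k ∈ Finset.range l, LL x b₁ b₂ (c k) (c (k + 1)) = LL x b₁ b₂ (c 0) (c l) := by
  induction l with
  | zero => rw [Finset.sum_range_zero]; unfold LL; ring
  | succ l ih => rw [Finset.sum_range_succ, ih]; unfold LL; ring

theorem Tel_LLb (x c₁ c₂ : ℝ) (b : ℕ → ℝ) (l : ℕ) :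
    ∑ k ∈ Finset.range l, LL x (b k) (b (k + 1)) c₁ c₂ = LL x (b 0) (b l) c₁ c₂ := by
  induction l with
  | zero => rw [Finset.sum_range_zero]; unfold LL; ring
  | succ l ih => rw [Finset.sum_range_succ, ih]; unfold LL; ring

theorem sum_LL (x : ℝ) (b c : ℕ → ℝ) (n l : ℕ) :
    ∑ j ∈ Finset.range n, ∑ k ∈ Finset.range l, LL x (b j) (b (j + 1)) (c k) (c (k + 1)) =
    LL x (b 0) (b n) (c 0) (c l) := by
  simp only [Tel_LLc, Tel_LLb]

theorem LL_nonneg {a b₁ b₂ c₁ c₂ : ℝ} (hb : b₁ ≤ b₂) (hc : c₁ ≤ c₂) : 0 ≤ LL a b₁ b₂ c₁ c₂ := by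
  unfold LL pp
  simp only [max_def]
  split_ifs <;> linarith

theorem LL_le {a b₁ b₂ c₁ c₂ : ℝ} (hb : b₁ ≤ b₂) (hc : c₁ ≤ c₂) :
    LL a b₁ b₂ c₁ c₂ ≤ b₂ - b₁ := by
  unfold LL pp
  simp only [max_def]
  split_ifs <;> linarith

theorem Tel_gM_nonneg (M h v w : ℝ) : 0 ≤ gM M h v w := by
  unfold gM
  split_ifs
  · positivity
  · exact le_rfl

theorem Tel_min {M h : ℝ} (hM : 0 ≤ M) (hh : 0 < h) : (min h M) ^ 2 ≤ M * h := by
  have h1 : min h M ≤ h := min_le_left _ _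
  have h2 : min h M ≤ M := min_le_right _ _
  have h3 : 0 ≤ min h M := le_min hh.le hM
  nlinarith

theorem gM_le_LL1 {M a b₁ b₂ c₁ c₂ : ℝ} (hM : 0 ≤ M) (hb : b₁ ≤ b₂) (hc : c₁ ≤ c₂) :
    gM M (a + b₂ + c₂) (b₂ - b₁) (c₂ - c₁) ≤ M * LL a b₁ b₂ c₁ c₂ := by
  unfold gM
  split_ifs with h
  · obtain ⟨h0, h1, h2⟩ := h
    have e : LL a b₁ b₂ c₁ c₂ = a + b₂ + c₂ := by
      unfold LL pp
      rw [max_eq_left (by linarith), max_eq_left (by linarith), max_eq_left (by linarith),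
        max_eq_right (by linarith)]
      ring
    rw [e]
    exact Tel_min hM h0
  · exact mul_nonneg hM (LL_nonneg hb hc)

theorem gM_le_LL2 {M a b₁ b₂ c₁ c₂ : ℝ} (hM : 0 ≤ M) (hb : b₁ ≤ b₂) (hc : c₁ ≤ c₂) :
    gM M (-(a + b₁ + c₁)) (b₂ - b₁) (c₂ - c₁) ≤ M * LL a b₁ b₂ c₁ c₂ := by
  unfold gM
  split_ifs with h
  · obtain ⟨h0, h1, h2⟩ := h
    have e : LL a b₁ b₂ c₁ c₂ = -(a + b₁ + c₁) := by
      unfold LL pp
      rw [max_eq_left (by linarith), max_eq_right (by linarith), max_eq_right (by linarith),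
        max_eq_right (by linarith)]
      ring
    rw [e]
    exact Tel_min hM h0
  · exact mul_nonneg hM (LL_nonneg hb hc)

theorem GG_le {M a b₁ b₂ c₁ c₂ : ℝ} (hM : 0 ≤ M) (hb : b₁ ≤ b₂) (hc : c₁ ≤ c₂) :
    |GG M a b₁ b₂ c₁ c₂| ≤ M * LL a b₁ b₂ c₁ c₂ := by
  unfold GG
  have h1 := gM_le_LL1 (a := a) hM hb hc
  have h2 := gM_le_LL2 (a := a) hM hb hc
  have h3 := Tel_gM_nonneg M (a + b₂ + c₂) (b₂ - b₁) (c₂ - c₁)
  have h4 := Tel_gM_nonneg M (-(a + b₁ + c₁)) (b₂ - b₁) (c₂ - c₁)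
  rw [abs_le]
  constructor <;> linarith

theorem Tel_flow {M : ℝ} (hM : 0 ≤ M) {b c : ℕ → ℝ} (hb : StrictMono b) (hc : StrictMono c)
    (x x' : ℝ) (n l : ℕ) :
    ∑ j ∈ Finset.range n, ∑ k ∈ Finset.range l,
      (GG M x (b j) (b (j + 1)) (c k) (c (k + 1)) - GG M x' (b j) (b (j + 1)) (c k) (c (k + 1))) ≤
    2 * M * (b n - b 0) := by
  have h1 : ∑ j ∈ Finset.range n, ∑ k ∈ Finset.range l,
      (GG M x (b j) (b (j + 1)) (c k) (c (k + 1)) - GG M x' (b j) (b (j + 1)) (c k) (c (k + 1))) ≤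
      ∑ j ∈ Finset.range n, ∑ k ∈ Finset.range l,
      (M * LL x (b j) (b (j + 1)) (c k) (c (k + 1)) + M * LL x' (b j) (b (j + 1)) (c k) (c (k + 1))) := by
    refine Finset.sum_le_sum fun j _ => Finset.sum_le_sum fun k _ => ?_
    have h2 := abs_le.1 (GG_le (a := x) hM (hb (Nat.lt_succ_self j)).le (hc (Nat.lt_succ_self k)).le)
    have h3 := abs_le.1 (GG_le (a := x') hM (hb (Nat.lt_succ_self j)).le (hc (Nat.lt_succ_self k)).le)
    simp only [Nat.succ_eq_add_one] at h2 h3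
    linarith [h2.2, h3.1]
  refine h1.trans ?_
  simp only [Finset.sum_add_distrib, ← Finset.mul_sum]
  rw [sum_LL, sum_LL]
  have hb0 : b 0 ≤ b n := hb.monotone (Nat.zero_le n)
  have hc0 : c 0 ≤ c l := hc.monotone (Nat.zero_le l)
  have h4 := LL_le (a := x) hb0 hc0
  have h5 := LL_le (a := x') hb0 hc0
  have h6 := mul_le_mul_of_nonneg_left h4 hM
  have h7 := mul_le_mul_of_nonneg_left h5 hM
  linarith

theorem tel_main {T M : ℝ} (hM : 0 ≤ M) {a b c : ℕ → ℝ} (ha : StrictMono a) (hb : StrictMono b)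
    (hc : StrictMono c) (m n l : ℕ) :
    ∑ i ∈ Finset.range m, ∑ j ∈ Finset.range n, ∑ k ∈ Finset.range l,
      RH T M (a i) (a (i + 1)) (b j) (b (j + 1)) (c k) (c (k + 1)) ≤
    T * BB (a 0) (a m) (b 0) (b n) (c 0) (c l)
      + 1 / 8 * (2 * M * (b n - b 0) + 4 * M * (a m - a 0)) := by
  have e : ∀ i j k, RH T M (a i) (a (i + 1)) (b j) (b (j + 1)) (c k) (c (k + 1)) =
      T * BB (a i) (a (i + 1)) (b j) (b (j + 1)) (c k) (c (k + 1)) + 1 / 8 *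
      ((GG M (a i) (b j) (b (j + 1)) (c k) (c (k + 1)) -
        GG M (a (i + 1)) (b j) (b (j + 1)) (c k) (c (k + 1))) +
      (GG M (b j) (a i) (a (i + 1)) (c k) (c (k + 1)) -
        GG M (b (j + 1)) (a i) (a (i + 1)) (c k) (c (k + 1))) +
      (GG M (c k) (a i) (a (i + 1)) (b j) (b (j + 1)) -
        GG M (c (k + 1)) (a i) (a (i + 1)) (b j) (b (j + 1)))) := by
    intro i j k
    unfold RH
    ring
  simp only [e, Finset.sum_add_distrib, ← Finset.mul_sum]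
  rw [sum_BB]
  have hX : ∑ i ∈ Finset.range m, ∑ j ∈ Finset.range n, ∑ k ∈ Finset.range l,
      (GG M (a i) (b j) (b (j + 1)) (c k) (c (k + 1)) -
        GG M (a (i + 1)) (b j) (b (j + 1)) (c k) (c (k + 1))) ≤ 2 * M * (b n - b 0) := by
    refine le_trans (le_of_eq ?_) (Tel_flow hM hb hc (a 0) (a m) n l)
    simp only [Finset.sum_sub_distrib]
    rw [← Finset.sum_sub_distrib]
    exact Finset.sum_range_sub' (fun i => ∑ j ∈ Finset.range n, ∑ k ∈ Finset.range l,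
      GG M (a i) (b j) (b (j + 1)) (c k) (c (k + 1))) m
  have hY : ∑ i ∈ Finset.range m, ∑ j ∈ Finset.range n, ∑ k ∈ Finset.range l,
      (GG M (b j) (a i) (a (i + 1)) (c k) (c (k + 1)) -
        GG M (b (j + 1)) (a i) (a (i + 1)) (c k) (c (k + 1))) ≤ 2 * M * (a m - a 0) := by
    refine le_trans (le_of_eq ?_) (Tel_flow hM ha hc (b 0) (b n) m l)
    refine Finset.sum_congr rfl fun i _ => ?_
    simp only [Finset.sum_sub_distrib]
    rw [← Finset.sum_sub_distrib]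
    exact Finset.sum_range_sub' (fun j => ∑ k ∈ Finset.range l,
      GG M (b j) (a i) (a (i + 1)) (c k) (c (k + 1))) n
  have hZ : ∑ i ∈ Finset.range m, ∑ j ∈ Finset.range n, ∑ k ∈ Finset.range l,
      (GG M (c k) (a i) (a (i + 1)) (b j) (b (j + 1)) -
        GG M (c (k + 1)) (a i) (a (i + 1)) (b j) (b (j + 1))) ≤ 2 * M * (a m - a 0) := by
    refine le_trans (le_of_eq ?_) (Tel_flow hM ha hb (c 0) (c l) m n)
    refine Finset.sum_congr rfl fun i _ => Finset.sum_congr rfl fun j _ => ?_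
    exact Finset.sum_range_sub' (fun k => GG M (c k) (a i) (a (i + 1)) (b j) (b (j + 1))) l
  linarith

end Pool.Agent.H86.TS
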