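import Pool.Agent.H86.TS.LcM
import Pool.Agent.H86.TS.Tel

/-!
ROW FiS (60 lines).  Discs in distinct cells of a finite arrangement.  `Σ_{D ∈ s} r_D² ≤ Σ_{cells} RH ≤ tel_main`:
map `s` injectively by `f` into `range m ×ˢ (range n ×ˢ range l)` (`Finset.sum_image`, `Finset.sum_le_sum_of_subset_of_nonneg`
with `loc0`, and `loc` for the cells in the image); `Finset.sum_product` to get the triple sum of `tel_main`.
-/

namespace Pool.Agent.H86.TS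

theorem fiS {ι : Type*} {q₁ q₂ q₃ T M : ℝ} (hC : Cst q₁ q₂ q₃ T) (hM : 0 ≤ M) {a b c : ℕ → ℝ}
    (ha : StrictMono a) (hb : StrictMono b) (hc : StrictMono c) (m n l : ℕ) (s : Finset ι)
    (f : ι → ℕ × ℕ × ℕ) (hf : Set.InjOn f s)
    (hm : ∀ D ∈ s, (f D).1 < m ∧ (f D).2.1 < n ∧ (f D).2.2 < l) (x y z r : ι → ℝ)
    (hr : ∀ D ∈ s, 8 * (r D) ^ 2 ≤ M ^ 2)
    (hin : ∀ D ∈ s, InCell q₁ q₂ q₃ (a (f D).1) (a ((f D).1 + 1)) (b (f D).2.1) (b ((f D).2.1 + 1))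
      (c (f D).2.2) (c ((f D).2.2 + 1)) (x D) (y D) (z D) (r D)) :
    ∑ D ∈ s, (r D) ^ 2 ≤ T * BB (a 0) (a m) (b 0) (b n) (c 0) (c l)
      + 1 / 8 * (2 * M * (b n - b 0) + 4 * M * (a m - a 0)) := by
  classical
  set g : ℕ × ℕ × ℕ → ℝ := fun p => RH T M (a p.1) (a (p.1 + 1)) (b p.2.1) (b (p.2.1 + 1))
    (c p.2.2) (c (p.2.2 + 1)) with hg
  have hg0 : ∀ p, 0 ≤ g p := fun p =>
    loc0 hC hM (ha (Nat.lt_succ_self _)) (hb (Nat.lt_succ_self _)) (hc (Nat.lt_succ_self _))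
  have h1 : ∑ D ∈ s, (r D) ^ 2 ≤ ∑ D ∈ s, g (f D) :=
    Finset.sum_le_sum fun D hD =>
      loc hC hM (ha (Nat.lt_succ_self _)) (hb (Nat.lt_succ_self _)) (hc (Nat.lt_succ_self _))
        (hr D hD) (hin D hD)
  have h2 : ∑ D ∈ s, g (f D) = ∑ p ∈ s.image f, g p :=
    (Finset.sum_image fun x hx y hy h => hf hx hy h).symm
  have h3 : ∑ p ∈ s.image f, g p ≤
      ∑ p ∈ Finset.range m ×ˢ (Finset.range n ×ˢ Finset.range l), g p := by
    refine Finset.sum_le_sum_of_subset_of_nonneg ?_ fun p _ _ => hg0 p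
    intro p hp
    obtain ⟨D, hD, rfl⟩ := Finset.mem_image.mp hp
    obtain ⟨h1, h2, h3⟩ := hm D hD
    exact Finset.mem_product.mpr ⟨Finset.mem_range.mpr h1,
      Finset.mem_product.mpr ⟨Finset.mem_range.mpr h2, Finset.mem_range.mpr h3⟩⟩
  have h4 : ∑ p ∈ Finset.range m ×ˢ (Finset.range n ×ˢ Finset.range l), g p =
      ∑ i ∈ Finset.range m, ∑ j ∈ Finset.range n, ∑ k ∈ Finset.range l,
        RH T M (a i) (a (i + 1)) (b j) (b (j + 1)) (c k) (c (k + 1)) := by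
    rw [Finset.sum_product]
    refine Finset.sum_congr rfl fun i _ => ?_
    rw [Finset.sum_product]
  calc ∑ D ∈ s, (r D) ^ 2 ≤ ∑ D ∈ s, g (f D) := h1
    _ = ∑ p ∈ s.image f, g p := h2
    _ ≤ _ := h3
    _ = _ := h4
    _ ≤ _ := tel_main hM ha hb hc m n l

end Pool.Agent.H86.TS
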