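import Pool.Agent.H86.TS.Defs

/-!
ROW SeQ (80 lines).
* `seq_of`: the elements of `S` in increasing order, continued by `A₁ + 1, A₁ + 2, ...`: `m + 1 = S.card` (`≥ 2`),
  `a i = S.orderEmbOfFin rfl ⟨i, _⟩` for `i ≤ m`, `a i = A₁ + (i - m)` for `i > m`; `a 0 = min = A₀`
  (`Finset.orderEmbOfFin_zero`), `a m = max = A₁` (`Finset.orderEmbOfFin_last`).  Or induction on `S`, or any other construction.
* `seq_loc`: a disc (an interval `[x - ρ, x + ρ]`, `ρ ≥ 0`) inside `[A₀, A₁]` and avoiding all points `a i`, `i ≤ m`, lies between two consecutive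
  ones: take the largest `i < m` with `a i ≤ x - ρ` (`Nat.findGreatest` or `Finset.exists_max_image`; `i = 0` works), then
  `a (i+1) > x - ρ` or `i + 1 = m`, in both cases `x + ρ ≤ a (i+1)`: if `i+1 = m` by `x + ρ ≤ A₁`, otherwise by avoidance.
-/

namespace Pool.Agent.H86.TS

theorem seq_of (S : Finset ℝ) {A₀ A₁ : ℝ} (h : A₀ < A₁) (h0 : A₀ ∈ S) (h1 : A₁ ∈ S)
    (hS : ∀ t ∈ S, A₀ ≤ t ∧ t ≤ A₁) :
    ∃ (m : ℕ) (a : ℕ → ℝ), StrictMono a ∧ a 0 = A₀ ∧ a m = A₁ ∧ (∀ t ∈ S, ∃ i ≤ m, a i = t) ∧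
      ∀ i ≤ m, a i ∈ S := by
  classical
  have hne : S.Nonempty := ⟨A₀, h0⟩
  have hpos : 0 < S.card := Finset.card_pos.2 hne
  obtain ⟨m, hm⟩ : ∃ m, S.card = m + 1 := ⟨S.card - 1, by omega⟩
  have hlt : ∀ i, i ≤ m → i < m + 1 := fun i hi => by omega
  let e := S.orderEmbOfFin hm
  have emem : ∀ i, e i ∈ S := fun i => S.orderEmbOfFin_mem hm i
  have elast : e ⟨m, hlt m le_rfl⟩ = A₁ := by
    apply le_antisymm (hS _ (emem _)).2
    have : A₁ ∈ Set.range e := by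
      rw [Finset.range_orderEmbOfFin]
      exact h1
    obtain ⟨j, hj⟩ := this
    rw [← hj]
    exact e.monotone (Fin.mk_le_mk.2 (by have := j.2; omega) : j ≤ ⟨m, hlt m le_rfl⟩)
  have ezero : e ⟨0, hlt 0 (Nat.zero_le _)⟩ = A₀ := by
    apply le_antisymm _ (hS _ (emem _)).1
    have : A₀ ∈ Set.range e := by
      rw [Finset.range_orderEmbOfFin]
      exact h0
    obtain ⟨j, hj⟩ := this
    rw [← hj]
    exact e.monotone (Fin.mk_le_mk.2 (Nat.zero_le _) : (⟨0, hlt 0 (Nat.zero_le _)⟩ : Fin (m + 1)) ≤ j)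
  let a : ℕ → ℝ := fun i => if hi : i ≤ m then e ⟨i, hlt i hi⟩ else A₁ + ((i : ℝ) - m)
  have a1 : ∀ i (hi : i ≤ m), a i = e ⟨i, hlt i hi⟩ := fun i hi => dif_pos hi
  have a2 : ∀ i, ¬ i ≤ m → a i = A₁ + ((i : ℝ) - m) := fun i hi => dif_neg hi
  refine ⟨m, a, ?_, ?_, ?_, ?_, ?_⟩
  · apply strictMono_nat_of_lt_succ
    intro n
    rcases lt_trichotomy n m with hn | hn | hn
    · rw [a1 n hn.le, a1 (n + 1) hn]
      exact e.strictMono (Fin.mk_lt_mk.2 (Nat.lt_succ_self n))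
    · subst hn
      rw [a1 n le_rfl, a2 (n + 1) (by omega), elast]
      push_cast
      linarith
    · rw [a2 n (by omega), a2 (n + 1) (by omega)]
      push_cast
      linarith
  · rw [a1 0 (Nat.zero_le _), ezero]
  · rw [a1 m le_rfl, elast]
  · intro t ht
    have : t ∈ Set.range e := by
      rw [Finset.range_orderEmbOfFin]
      exact ht
    obtain ⟨j, hj⟩ := this
    refine ⟨j.1, by have := j.2; omega, ?_⟩
    rw [a1 j.1 (by have := j.2; omega), ← hj]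
  · intro i hi
    rw [a1 i hi]
    exact emem _

theorem seq_loc {a : ℕ → ℝ} (ha : StrictMono a) {m : ℕ} (hm : 0 < m) {x ρ : ℝ} (hρ : 0 ≤ ρ)
    (h0 : a 0 + ρ ≤ x) (h1 : x + ρ ≤ a m) (hav : ∀ i ≤ m, x + ρ ≤ a i ∨ a i ≤ x - ρ) :
    ∃ i < m, a i + ρ ≤ x ∧ x + ρ ≤ a (i + 1) := by
  classical
  let i := Nat.findGreatest (fun i => a i + ρ ≤ x) (m - 1)
  have hi1 : a i + ρ ≤ x := Nat.findGreatest_spec (P := fun i => a i + ρ ≤ x) (Nat.zero_le (m - 1)) h0
  have hi2 : i ≤ m - 1 := Nat.findGreatest_le (m - 1)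
  refine ⟨i, by omega, hi1, ?_⟩
  by_cases hle : i + 1 ≤ m - 1
  · have hn : ¬ (a (i + 1) + ρ ≤ x) :=
      Nat.findGreatest_is_greatest (P := fun i => a i + ρ ≤ x) (Nat.lt_succ_self i) hle
    rcases hav (i + 1) (by omega) with h | h
    · exact h
    · exact absurd (by linarith) hn
  · have : i + 1 = m := by omega
    rw [this]
    exact h1

end Pool.Agent.H86.TS
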