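import Pool.Agent.H86.TS.FiS
import Pool.Agent.H86.TS.SeQ

/-!
ROW FiT (200 lines).  The finite theorem for a parallelogram window `A₀ ≤ X ≤ A₁`, `B₀ ≤ Y ≤ B₁`.
`p_i = (1-q_i)/2`.  Let `C₀ = -(A₁+B₁)`, `C₁ = -(A₀+B₀)`.
* Every disc of `s` has `C₀ + p₃ r ≤ z`, `z + p₃ r ≤ C₁` (`z = -x-y`, `p₁+p₂ ≥ p₃`).
* For each pair with `SepBy` in the first coordinate choose a `t` (it satisfies `A₀ < t < A₁` as `x D + p₁ r D ≤ t ≤ x D' - p₁ r D'`, `r > 0`);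
  let `S₁ ⊆ ℝ` be the finite set of these `t` together with `A₀, A₁`; the same for `S₂` (with `B₀, B₁`), `S₃` (with `C₀, C₁`).
  (E.g. by `choose`/classical: `t₁ D D' :=` the chosen `t` if `SepBy ..`, otherwise `A₀`; `S₁ = insert A₀ (insert A₁ (image (s ×ˢ s)))`.)
  All discs avoid all elements of `S₁, S₂, S₃`.
* `seq_of` gives `a, b, c` with lengths `m, n, l ≥ 1`; `seq_loc` gives the cell `f D` of each `D`.
* injectivity: if `D ≠ D'` had the same cell: say separated by `t = a i'` in the first coordinate, `x D + p₁ r D ≤ a i' ≤ x D' - p₁ r D'`;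
  with `a i + p₁ r ≤ x`, `x + p₁ r ≤ a (i+1)` for both: `a i < x D < a i' < x D' < a (i+1)` contradicts `StrictMono`.
* `fiS`, and `BB A₀ A₁ B₀ B₁ C₀ C₁ = 2 (A₁-A₀)(B₁-B₀)` (the eight arguments are `U+V`, `V`, `U`, `0`, `0`, `-U`, `-V`, `-(U+V)`), and
  `1/8 (2 M V + 4 M U) ≤ M (U + V)`.
-/

namespace Pool.Agent.H86.TS

/-- all discs of `s` avoid the line at position `t`; `p` is the weight of the coordinate `x` -/
def Avoid {ι : Type*} (s : Finset ι) (p : ℝ) (x r : ι → ℝ) (t : ℝ) : Prop :=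
  ∀ D ∈ s, x D + p * r D ≤ t ∨ t ≤ x D - p * r D

/-- `D` and `D'` are separated by a line of the family of lines given by the coordinate `x` -/
def SepBy {ι : Type*} (s : Finset ι) (p : ℝ) (x r : ι → ℝ) (D D' : ι) : Prop :=
  ∃ t, Avoid s p x r t ∧ ((x D + p * r D ≤ t ∧ t ≤ x D' - p * r D') ∨
    (x D' + p * r D' ≤ t ∧ t ≤ x D - p * r D))

/-- the finite family of lines of one direction -/
theorem fiT_fam {ι : Type*} (s : Finset ι) {p : ℝ} (hp : 0 < p) (x r : ι → ℝ)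
    (hr : ∀ D ∈ s, 0 < r D) {A₀ A₁ : ℝ} (h : A₀ < A₁) (h0 : ∀ D ∈ s, A₀ + p * r D ≤ x D)
    (h1 : ∀ D ∈ s, x D + p * r D ≤ A₁) :
    ∃ (m : ℕ) (a : ℕ → ℝ) (f : ι → ℕ), StrictMono a ∧ a 0 = A₀ ∧ a m = A₁ ∧
      (∀ D ∈ s, f D < m ∧ a (f D) + p * r D ≤ x D ∧ x D + p * r D ≤ a (f D + 1)) ∧
      ∀ D ∈ s, ∀ D' ∈ s, SepBy s p x r D D' → f D ≠ f D' := by
  classical
  let t : ι × ι → ℝ := fun u =>
    if hu : u.1 ∈ s ∧ u.2 ∈ s ∧ SepBy s p x r u.1 u.2 then hu.2.2.choose else A₀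
  let S : Finset ℝ := insert A₀ (insert A₁ ((s ×ˢ s).image t))
  have hA0 : Avoid s p x r A₀ := fun D hD => Or.inr (by linarith [h0 D hD])
  have hA1 : Avoid s p x r A₁ := fun D hD => Or.inl (h1 D hD)
  have hpr : ∀ D ∈ s, 0 < p * r D := fun D hD => mul_pos hp (hr D hD)
  have ht : ∀ D D', D ∈ s → D' ∈ s → SepBy s p x r D D' → Avoid s p x r (t (D, D')) ∧
      ((x D + p * r D ≤ t (D, D') ∧ t (D, D') ≤ x D' - p * r D') ∨
        (x D' + p * r D' ≤ t (D, D') ∧ t (D, D') ≤ x D - p * r D)) := by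
    intro D D' hD hD' hs
    have hu : D ∈ s ∧ D' ∈ s ∧ SepBy s p x r D D' := ⟨hD, hD', hs⟩
    have e : t (D, D') = hu.2.2.choose := dif_pos hu
    rw [e]
    exact hu.2.2.choose_spec
  have hS : ∀ u ∈ S, Avoid s p x r u ∧ A₀ ≤ u ∧ u ≤ A₁ := by
    intro u hu
    rcases Finset.mem_insert.1 hu with rfl | hu
    · exact ⟨hA0, le_rfl, h.le⟩
    rcases Finset.mem_insert.1 hu with rfl | hu
    · exact ⟨hA1, h.le, le_rfl⟩
    obtain ⟨⟨D, D'⟩, hDD, rfl⟩ := Finset.mem_image.1 hu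
    obtain ⟨hD, hD'⟩ := Finset.mem_product.1 hDD
    by_cases hs : SepBy s p x r D D'
    · obtain ⟨g1, g2⟩ := ht D D' hD hD' hs
      refine ⟨g1, ?_⟩
      have k1 := h0 D hD
      have k2 := h0 D' hD'
      have k3 := h1 D hD
      have k4 := h1 D' hD'
      have k5 := hpr D hD
      have k6 := hpr D' hD'
      rcases g2 with ⟨g2, g3⟩ | ⟨g2, g3⟩
      · constructor <;> linarith
      · constructor <;> linarith
    · have e : t (D, D') = A₀ := dif_neg fun hu => hs hu.2.2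
      rw [e]
      exact ⟨hA0, le_rfl, h.le⟩
  obtain ⟨m, a, ha, ha0, ham, haS, hSa⟩ := seq_of S h (Finset.mem_insert_self _ _)
    (Finset.mem_insert_of_mem (Finset.mem_insert_self _ _)) fun u hu => (hS u hu).2
  have hm : 0 < m := by
    rcases Nat.eq_zero_or_pos m with hm | hm
    · rw [hm, ha0] at ham
      exact absurd ham h.ne
    · exact hm
  have hloc : ∀ D, ∃ i, D ∈ s → i < m ∧ a i + p * r D ≤ x D ∧ x D + p * r D ≤ a (i + 1) := by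
    intro D
    by_cases hD : D ∈ s
    · obtain ⟨i, hi, h2, h3⟩ := seq_loc ha hm (hpr D hD).le (by rw [ha0]; exact h0 D hD)
        (by rw [ham]; exact h1 D hD) fun i hi => (hS (a i) (hSa i hi)).1 D hD
      exact ⟨i, fun _ => ⟨hi, h2, h3⟩⟩
    · exact ⟨0, fun hD' => absurd hD' hD⟩
  choose f hf using hloc
  refine ⟨m, a, f, ha, ha0, ham, hf, ?_⟩
  intro D hD D' hD' hs hff
  obtain ⟨g1, g2⟩ := ht D D' hD hD' hs
  have hmem : t (D, D') ∈ S := Finset.mem_insert_of_mem (Finset.mem_insert_of_mem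
    (Finset.mem_image_of_mem t (Finset.mem_product.2 ⟨hD, hD'⟩)))
  obtain ⟨i', hi', hai'⟩ := haS _ hmem
  obtain ⟨e1, e2, e3⟩ := hf D hD
  obtain ⟨e4, e5, e6⟩ := hf D' hD'
  rw [← hff] at e5 e6
  rw [← hai'] at g2
  have k5 := hpr D hD
  have k6 := hpr D' hD'
  rcases g2 with ⟨g2, g3⟩ | ⟨g2, g3⟩
  · have l1 : f D < i' := ha.lt_iff_lt.1 (by linarith)
    have l2 : i' < f D + 1 := ha.lt_iff_lt.1 (by linarith)
    omega
  · have l1 : f D < i' := ha.lt_iff_lt.1 (by linarith)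
    have l2 : i' < f D + 1 := ha.lt_iff_lt.1 (by linarith)
    omega

theorem fiT_BB (A₀ A₁ B₀ B₁ : ℝ) (hA : A₀ < A₁) (hB : B₀ < B₁) :
    BB A₀ A₁ B₀ B₁ (-(A₁ + B₁)) (-(A₀ + B₀)) = 2 * (A₁ - A₀) * (B₁ - B₀) := by
  have hpos : ∀ t : ℝ, 0 ≤ t → p2 t = t ^ 2 := fun t ht => by unfold p2; rw [max_eq_left ht]
  have hneg : ∀ t : ℝ, t ≤ 0 → p2 t = 0 := fun t ht => by unfold p2; rw [max_eq_right ht]; ring
  unfold BB
  rw [hpos (-(A₀ + B₀ + -(A₁ + B₁))) (by linarith), hpos (-(A₁ + B₀ + -(A₁ + B₁))) (by linarith),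
    hpos (-(A₀ + B₁ + -(A₁ + B₁))) (by linarith), hneg (-(A₀ + B₀ + -(A₀ + B₀))) (by linarith),
    hneg (-(A₁ + B₁ + -(A₁ + B₁))) (by linarith), hneg (-(A₁ + B₀ + -(A₀ + B₀))) (by linarith),
    hneg (-(A₀ + B₁ + -(A₀ + B₀))) (by linarith), hneg (-(A₁ + B₁ + -(A₀ + B₀))) (by linarith)]
  ring

theorem fiT {ι : Type*} {q₁ q₂ q₃ T M : ℝ} (hC : Cst q₁ q₂ q₃ T) (hM : 0 ≤ M)
    {A₀ A₁ B₀ B₁ : ℝ} (hA : A₀ < A₁) (hB : B₀ < B₁) (s : Finset ι) (x y z r : ι → ℝ)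
    (hsum : ∀ D ∈ s, x D + y D + z D = 0) (hr0 : ∀ D ∈ s, 0 < r D)
    (hr : ∀ D ∈ s, 8 * (r D) ^ 2 ≤ M ^ 2)
    (hx0 : ∀ D ∈ s, A₀ + (1 - q₁) / 2 * r D ≤ x D) (hx1 : ∀ D ∈ s, x D + (1 - q₁) / 2 * r D ≤ A₁)
    (hy0 : ∀ D ∈ s, B₀ + (1 - q₂) / 2 * r D ≤ y D) (hy1 : ∀ D ∈ s, y D + (1 - q₂) / 2 * r D ≤ B₁)
    (hsep : ∀ D ∈ s, ∀ D' ∈ s, D ≠ D' → SepBy s ((1 - q₁) / 2) x r D D' ∨
      SepBy s ((1 - q₂) / 2) y r D D' ∨ SepBy s ((1 - q₃) / 2) z r D D') :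
    ∑ D ∈ s, (r D) ^ 2 ≤ T * (2 * (A₁ - A₀) * (B₁ - B₀)) + M * ((A₁ - A₀) + (B₁ - B₀)) := by
  have q1 := hC.h1
  have q2 := hC.h2
  have q3 := hC.h3
  have qs := hC.sum
  have hz0 : ∀ D ∈ s, -(A₁ + B₁) + (1 - q₃) / 2 * r D ≤ z D := by
    intro D hD
    have e1 := hx1 D hD
    have e2 := hy1 D hD
    have e3 := hsum D hD
    have e4 := mul_pos q3 (hr0 D hD)
    have e5 : (1 - q₁) / 2 * r D + (1 - q₂) / 2 * r D = (1 - q₃) / 2 * r D + q₃ * r D := by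
      have : q₃ = 1 - q₁ - q₂ := by linarith
      rw [this]; ring
    linarith
  have hz1 : ∀ D ∈ s, z D + (1 - q₃) / 2 * r D ≤ -(A₀ + B₀) := by
    intro D hD
    have e1 := hx0 D hD
    have e2 := hy0 D hD
    have e3 := hsum D hD
    have e4 := mul_pos q3 (hr0 D hD)
    have e5 : (1 - q₁) / 2 * r D + (1 - q₂) / 2 * r D = (1 - q₃) / 2 * r D + q₃ * r D := by
      have : q₃ = 1 - q₁ - q₂ := by linarith
      rw [this]; ring
    linarith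
  obtain ⟨m, a, f1, ha, ha0, ham, hf1, hs1⟩ := fiT_fam s (p := (1 - q₁) / 2) (by linarith) x r hr0
    hA hx0 hx1
  obtain ⟨n, b, f2, hb, hb0, hbn, hf2, hs2⟩ := fiT_fam s (p := (1 - q₂) / 2) (by linarith) y r hr0
    hB hy0 hy1
  obtain ⟨l, c, f3, hc, hc0, hcl, hf3, hs3⟩ := fiT_fam s (p := (1 - q₃) / 2) (by linarith) z r hr0
    (show -(A₁ + B₁) < -(A₀ + B₀) by linarith) hz0 hz1
  have key := fiS hC hM ha hb hc m n l s (fun D => (f1 D, f2 D, f3 D)) (by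
    intro D hD D' hD' hfe
    by_contra hne
    have e1 : f1 D = f1 D' := congrArg (fun u : ℕ × ℕ × ℕ => u.1) hfe
    have e2 : f2 D = f2 D' := congrArg (fun u : ℕ × ℕ × ℕ => u.2.1) hfe
    have e3 : f3 D = f3 D' := congrArg (fun u : ℕ × ℕ × ℕ => u.2.2) hfe
    rcases hsep D hD D' hD' hne with h | h | h
    · exact hs1 D hD D' hD' h e1
    · exact hs2 D hD D' hD' h e2
    · exact hs3 D hD D' hD' h e3)
    (fun D hD => ⟨(hf1 D hD).1, (hf2 D hD).1, (hf3 D hD).1⟩) x y z r hr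
    (fun D hD => ⟨(hr0 D hD).le, hsum D hD, (hf1 D hD).2.1, (hf1 D hD).2.2, (hf2 D hD).2.1,
      (hf2 D hD).2.2, (hf3 D hD).2.1, (hf3 D hD).2.2⟩)
  rw [ha0, ham, hb0, hbn, hc0, hcl, fiT_BB A₀ A₁ B₀ B₁ hA hB] at key
  have k1 : 0 ≤ M * (A₁ - A₀) := mul_nonneg hM (by linarith)
  have k2 : 0 ≤ M * (B₁ - B₀) := mul_nonneg hM (by linarith)
  have k3 : 1 / 8 * (2 * M * (B₁ - B₀) + 4 * M * (A₁ - A₀)) ≤ M * ((A₁ - A₀) + (B₁ - B₀)) := by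
    have e : M * ((A₁ - A₀) + (B₁ - B₀)) - 1 / 8 * (2 * M * (B₁ - B₀) + 4 * M * (A₁ - A₀))
        = 1 / 2 * (M * (A₁ - A₀)) + 3 / 4 * (M * (B₁ - B₀)) := by ring
    nlinarith
  linarith

end Pool.Agent.H86.TS
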