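import Pool.Agent.H86.TS.Defs

/-!
Definitions for the geometric part: frames.
-/

namespace Pool.Agent.H86.TS

/-- the plane -/
abbrev E := EuclideanSpace ℝ (Fin 2)

/-- the determinant of two vectors -/
def dt (u v : E) : ℝ := u 0 * v 1 - u 1 * v 0

/-- a frame: three vectors with sum zero, pairwise independent, whose norms have sum one -/
structure Frame (f : Fin 3 → E) : Prop where
  sum : f 0 + f 1 + f 2 = 0
  norm : ‖f 0‖ + ‖f 1‖ + ‖f 2‖ = 1
  det : dt (f 0) (f 1) ≠ 0

/-- the weights of a frame -/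
noncomputable def qq (f : Fin 3 → E) (i : Fin 3) : ℝ := 1 - 2 * ‖f i‖

/-- the constant `T` of a frame -/
noncomputable def TT (f : Fin 3 → E) : ℝ := 11 / (48 * √3 * |dt (f 0) (f 1)|)

/-- the disc with centre `o`, radius `r` lies in the closed half plane `⟪n, x⟫ ≤ t` / `≥ t` -/
def Sep (n : E) (t : ℝ) (o o' : E) (r r' : ℝ) : Prop :=
  (∀ x ∈ Metric.closedBall o r, inner ℝ n x ≤ t) ∧ (∀ x ∈ Metric.closedBall o' r', t ≤ inner ℝ n x)

end Pool.Agent.H86.TS
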