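import Pool.Agent.H86.TS.PoA

/-!
ROW Lc0 (90 lines).  Symmetries and signs, and the triangle case.
* `gM_nonneg`, `gM_neg` (`h ≤ 0`), `gM_big` (`v < h` or `w < h`): by definition (`if_neg`).
* `gM_le_sq`: `gM M h v w ≤ h²` if `0 ≤ h`, `0 ≤ M` (`min h M ∈ [0,h]`).  `gM_in`: value if `0 < h ≤ v, w`.
* `Bf_swap`: `Bf H U V W = Bf (U+V+W-H) U V W`: `p2 t = t² - p2 (-t)` (`p2_add`), after rewriting all eight terms
  `p2 (U+V+W-H - ...) = (...)² - p2 (...)` the squares cancel (`ring`): `p2 (H'-U) ` with `-(H'-U) = H-V-W` etc.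
* `NF_swap`: `NF M H H' U V W = NF M H' H U V W` (`ring` after `unfold NF`).
* `Bf_perm12`, `Bf_perm13`, `NF_perm12`, `NF_perm13`: `ring`-like; for `NF` use `gM_comm : gM M h v w = gM M h w v`.
* `Lc0_main`: `H ≤ U, V, W`: `Bf = H²` (all other `p2` vanish, `p2_of_nonpos`), `NF ≥ -3 H²`: in each of the three
  lines of `NF` the term `gM M H' ..` vanishes since `H' = U+V+W-H ≥ V+W > V` etc., the term `-gM M H ..`
  is `≥ -H²` and the other two are `≥ 0`.  Then `T ≥ 11/8` and `r ≤ H`.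
-/

namespace Pool.Agent.H86.TS

theorem p2_of_nonpos {t : ℝ} (h : t ≤ 0) : p2 t = 0 := by
  unfold p2
  rw [max_eq_right h]
  norm_num

theorem p2_of_nonneg {t : ℝ} (h : 0 ≤ t) : p2 t = t ^ 2 := by
  unfold p2
  rw [max_eq_left h]

theorem p2_nonneg (t : ℝ) : 0 ≤ p2 t := by
  unfold p2
  exact sq_nonneg _

theorem p2_add (t : ℝ) : p2 t + p2 (-t) = t ^ 2 := by
  rcases le_total t 0 with h | h
  · rw [p2_of_nonpos h, p2_of_nonneg (by linarith : (0 : ℝ) ≤ -t)]
    ring
  · rw [p2_of_nonneg h, p2_of_nonpos (by linarith : -t ≤ 0)]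
    ring

theorem gM_nonneg (M h v w : ℝ) : 0 ≤ gM M h v w := by
  unfold gM
  split_ifs
  · exact sq_nonneg _
  · exact le_refl _

theorem gM_neg {M h v w : ℝ} (hh : h ≤ 0) : gM M h v w = 0 := by
  unfold gM
  rw [if_neg]
  intro h1
  linarith [h1.1]

theorem gM_big1 {M h v w : ℝ} (hh : v < h) : gM M h v w = 0 := by
  unfold gM
  rw [if_neg]
  intro h1
  linarith [h1.2.1]

theorem gM_big2 {M h v w : ℝ} (hh : w < h) : gM M h v w = 0 := by
  unfold gM
  rw [if_neg]
  intro h1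
  linarith [h1.2.2]

theorem gM_in {M h v w : ℝ} (h0 : 0 < h) (hv : h ≤ v) (hw : h ≤ w) :
    gM M h v w = (min h M) ^ 2 := by
  unfold gM
  rw [if_pos ⟨h0, hv, hw⟩]

theorem gM_le_sq {M h v w : ℝ} (hM : 0 ≤ M) (h0 : 0 ≤ h) : gM M h v w ≤ h ^ 2 := by
  unfold gM
  split_ifs
  · exact pow_le_pow_left₀ (le_min h0 hM) (min_le_left _ _) 2
  · exact sq_nonneg _

theorem gM_comm (M h v w : ℝ) : gM M h v w = gM M h w v := by
  unfold gM
  have : (0 < h ∧ h ≤ v ∧ h ≤ w) ↔ (0 < h ∧ h ≤ w ∧ h ≤ v) := by tauto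
  simp only [this]

theorem Bf_swap (H U V W : ℝ) : Bf H U V W = Bf (U + V + W - H) U V W := by
  have e0 := p2_add H
  have e1 := p2_add (H - U)
  have e2 := p2_add (H - V)
  have e3 := p2_add (H - W)
  have e4 := p2_add (H - U - V)
  have e5 := p2_add (H - U - W)
  have e6 := p2_add (H - V - W)
  have e7 := p2_add (H - U - V - W)
  unfold Bf
  have f0 : U + V + W - H = -(H - U - V - W) := by ring
  have f1 : U + V + W - H - U = -(H - V - W) := by ring
  have f2 : U + V + W - H - V = -(H - U - W) := by ring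
  have f3 : U + V + W - H - W = -(H - U - V) := by ring
  have f4 : U + V + W - H - U - V = -(H - W) := by ring
  have f5 : U + V + W - H - U - W = -(H - V) := by ring
  have f6 : U + V + W - H - V - W = -(H - U) := by ring
  have f7 : U + V + W - H - U - V - W = -H := by ring
  rw [f7, f4, f5, f6, f1, f2, f3, f0]
  nlinarith [e0, e1, e2, e3, e4, e5, e6, e7]

theorem NF_swap (M H H' U V W : ℝ) : NF M H H' U V W = NF M H' H U V W := by
  unfold NF
  ring

theorem Bf_perm12 (H U V W : ℝ) : Bf H U V W = Bf H V U W := by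
  unfold Bf
  have f1 : H - V - U = H - U - V := by ring
  rw [f1]
  ring

theorem Bf_perm13 (H U V W : ℝ) : Bf H U V W = Bf H W V U := by
  unfold Bf
  have f1 : H - W - V = H - V - W := by ring
  have f2 : H - W - U = H - U - W := by ring
  have f3 : H - V - U = H - U - V := by ring
  have f4 : H - V - W - U = H - U - V - W := by ring
  rw [f1, f2, f3, f4]
  ring

theorem NF_perm12 (M H H' U V W : ℝ) : NF M H H' U V W = NF M H H' V U W := by
  unfold NF
  rw [gM_comm M (H' - W) V U, gM_comm M H V U, gM_comm M H' V U, gM_comm M (H - W) V U]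
  ring

theorem NF_perm13 (M H H' U V W : ℝ) : NF M H H' U V W = NF M H H' W V U := by
  unfold NF
  rw [gM_comm M (H' - W) V U, gM_comm M H V U, gM_comm M H' V U, gM_comm M (H - W) V U,
    gM_comm M (H' - V) W U, gM_comm M H W U, gM_comm M H' W U, gM_comm M (H - V) W U,
    gM_comm M (H' - U) W V, gM_comm M H W V, gM_comm M H' W V, gM_comm M (H - U) W V]
  ring

theorem Lc0_main {q₁ q₂ q₃ T M H H' U V W r : ℝ} (hC : Cst q₁ q₂ q₃ T) (hM : 0 ≤ M)
    (hH : 0 < H) (hU : H ≤ U) (hV : H ≤ V) (hW : H ≤ W) (hs : H + H' = U + V + W) (hr : 0 ≤ r)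
    (hrH : r ≤ H) : r ^ 2 ≤ T * Bf H U V W + 1 / 8 * NF M H H' U V W := by
  have hB : Bf H U V W = H ^ 2 := by
    unfold Bf
    rw [p2_of_nonneg hH.le, p2_of_nonpos (by linarith : H - U ≤ 0),
      p2_of_nonpos (by linarith : H - V ≤ 0), p2_of_nonpos (by linarith : H - W ≤ 0),
      p2_of_nonpos (by linarith : H - U - V ≤ 0), p2_of_nonpos (by linarith : H - U - W ≤ 0),
      p2_of_nonpos (by linarith : H - V - W ≤ 0), p2_of_nonpos (by linarith : H - U - V - W ≤ 0)]
    ring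
  have hN : -3 * H ^ 2 ≤ NF M H H' U V W := by
    unfold NF
    have a1 := gM_nonneg M (H' - U) V W
    have a2 := gM_nonneg M (H' - V) U W
    have a3 := gM_nonneg M (H' - W) U V
    have b1 := gM_nonneg M (H - U) V W
    have b2 := gM_nonneg M (H - V) U W
    have b3 := gM_nonneg M (H - W) U V
    have c1 : gM M H' V W = 0 := gM_big1 (by linarith)
    have c2 : gM M H' U W = 0 := gM_big1 (by linarith)
    have c3 : gM M H' U V = 0 := gM_big1 (by linarith)
    have d1 := gM_le_sq (v := V) (w := W) hM hH.le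
    have d2 := gM_le_sq (v := U) (w := W) hM hH.le
    have d3 := gM_le_sq (v := U) (w := V) hM hH.le
    rw [c1, c2, c3]
    linarith
  have hT := hC.T_ge
  have h1 : r ^ 2 ≤ H ^ 2 := pow_le_pow_left₀ hr hrH 2
  have h2 : 11 / 8 * H ^ 2 ≤ T * H ^ 2 := mul_le_mul_of_nonneg_right hT (sq_nonneg H)
  rw [hB]
  linarith

end Pool.Agent.H86.TS
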