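import Pool.Agent.H86.TS.PoC
import Pool.Agent.H86.TS.Lc0

/-!
ROW Lc1 (90 lines).  Trapezoid: `0 < U < H ≤ V, W`.  `Bf = H² - (H-U)²` (`p2 (H-V) = p2 (H-W) = 0` and the terms with two
or three widths vanish).  `NF ≥ -(min H M)² + (min (H-U) M)² ≥ -H² + (H-U)²`: first line of `NF`: `gM M H V W = (min H M)²`,
`gM M H' V W = 0` (`H' = U+V+W-H ≥ U+V > V`), `gM M (H-U) V W = (min (H-U) M)²`; second line: `gM M H U W = 0` (`H > U`),
`gM M H' U W = 0` (`H' ≥ U + V > U`), third line likewise; the other terms are `≥ 0`.  Then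
`(min H M)² - (min (H-U) M)² ≤ H² - (H-U)²` (cases on `H ≤ M`, `H - U ≤ M`).
So the right side is `≥ (T - 1/8)(H² - (H-U)²)`, and `H² - (H-U)² ≥ (1-q₁²) r²`: `0 < H - U ≤ (H - r) + q₁ r`, so
`(H-U)² ≤ ((H-r)+q₁ r)²` and `H² - ((H-r)+q₁r)² = r²(1-q₁²) + 2 r (H-r)(1-q₁)`.  Use `Cst.trap`.
-/

namespace Pool.Agent.H86.TS

theorem Lc1_main {q₁ q₂ q₃ T M H H' U V W r : ℝ} (hC : Cst q₁ q₂ q₃ T) (hM : 0 ≤ M)
    (hU0 : 0 < U) (hU : U < H) (hV : H ≤ V) (hW : H ≤ W) (hs : H + H' = U + V + W) (hr : 0 ≤ r)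
    (hrH : r ≤ H) (hrU : (1 - q₁) * r ≤ U) :
    r ^ 2 ≤ T * Bf H U V W + 1 / 8 * NF M H H' U V W := by
  have hH : 0 < H := hU0.trans hU
  have hBf : Bf H U V W = H ^ 2 - (H - U) ^ 2 := by
    unfold Bf
    rw [p2_of_nonneg hH.le, p2_of_nonneg (sub_nonneg.2 hU.le), p2_of_nonpos (sub_nonpos.2 hV),
      p2_of_nonpos (sub_nonpos.2 hW), p2_of_nonpos (by linarith : H - U - V ≤ 0),
      p2_of_nonpos (by linarith : H - U - W ≤ 0), p2_of_nonpos (by linarith : H - V - W ≤ 0),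
      p2_of_nonpos (by linarith : H - U - V - W ≤ 0)]
    ring
  have hg1 : gM M H V W = (min H M) ^ 2 := gM_in hH hV hW
  have hg2 : gM M H' V W = 0 := gM_big1 (by linarith)
  have hg3 : gM M (H - U) V W = (min (H - U) M) ^ 2 :=
    gM_in (by linarith) (by linarith) (by linarith)
  have hg4 : gM M H U W = 0 := gM_big1 hU
  have hg5 : gM M H' U W = 0 := gM_big1 (by linarith)
  have hg6 : gM M H U V = 0 := gM_big1 hU
  have hg7 : gM M H' U V = 0 := gM_big1 (by linarith)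
  have hn1 := gM_nonneg M (H' - U) V W
  have hn2 := gM_nonneg M (H' - V) U W
  have hn3 := gM_nonneg M (H - V) U W
  have hn4 := gM_nonneg M (H' - W) U V
  have hn5 := gM_nonneg M (H - W) U V
  have hNF : (min (H - U) M) ^ 2 - (min H M) ^ 2 ≤ NF M H H' U V W := by
    unfold NF
    rw [hg1, hg2, hg3, hg4, hg5, hg6, hg7]
    linarith
  have hmin : (min H M) ^ 2 - (min (H - U) M) ^ 2 ≤ H ^ 2 - (H - U) ^ 2 := by
    rcases le_total H M with h1 | h1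
    · rw [min_eq_left h1, min_eq_left (by linarith : H - U ≤ M)]
    · rw [min_eq_right h1]
      rcases le_total (H - U) M with h2 | h2
      · rw [min_eq_left h2]
        nlinarith [mul_nonneg (sub_nonneg.2 h1) (add_nonneg hH.le hM)]
      · rw [min_eq_right h2]
        nlinarith [mul_pos hU0 hH, mul_pos hU0 (sub_pos.2 hU)]
  have htrap := hC.trap
  have hq1 := hC.h1
  have hq2 := hC.h2
  have hq3 := hC.h3
  have hqs := hC.sum
  have hq1' : q₁ < 1 := by linarith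
  have hqq : 0 < 1 - q₁ ^ 2 := by nlinarith
  have hT : 0 < T - 1 / 8 := by
    by_contra h
    nlinarith [mul_nonneg (sub_nonneg.2 (not_lt.1 h)) hqq.le]
  have hU2 : (1 - q₁ ^ 2) * r ^ 2 ≤ H ^ 2 - (H - U) ^ 2 := by
    have hU0' : 0 ≤ (1 - q₁) * r := mul_nonneg (by linarith) hr
    have e1 : 0 ≤ (U - (1 - q₁) * r) * (2 * H - U - (1 - q₁) * r) :=
      mul_nonneg (by linarith) (by linarith)
    have e2 : 0 ≤ ((1 - q₁) * r) * (H - r) := mul_nonneg hU0' (by linarith)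
    nlinarith [e1, e2]
  have hfin : r ^ 2 ≤ (T - 1 / 8) * (H ^ 2 - (H - U) ^ 2) := by
    have e1 : (T - 1 / 8) * ((1 - q₁ ^ 2) * r ^ 2) ≤ (T - 1 / 8) * (H ^ 2 - (H - U) ^ 2) :=
      mul_le_mul_of_nonneg_left hU2 hT.le
    have e2 : 1 * r ^ 2 ≤ ((T - 1 / 8) * (1 - q₁ ^ 2)) * r ^ 2 :=
      mul_le_mul_of_nonneg_right htrap (sq_nonneg r)
    nlinarith [e1, e2]
  rw [hBf]
  nlinarith [hfin, hNF, hmin]

end Pool.Agent.H86.TS
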