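import Pool.Agent.H86.TS.PoB
import Pool.Agent.H86.TS.Lc0

/-!
ROW Lc2 (110 lines).  Pentagon and parallelogram: `0 < U, V < H ≤ W`.  `NF ≥ 0`: `gM M H V W = 0` (`H > V`),
`gM M H U W = 0`, `gM M H U V = 0`; `H' = U+V+W-H ≥ U+V`, so `gM M H' V W = gM M H' U W = gM M H' U V = 0`
(`gM_big1`); all other terms are `≥ 0`.
* `U + V ≤ H`: `Bf = H² - (H-U)² - (H-V)² + (H-U-V)² = 2UV ≥ 2(1-q₁)(1-q₂) r²` (`U ≥ (1-q₁) r` from the hypotheses), `Cst.para`.
* `H < U + V`: `Bf = H² - (H-U)² - (H-V)²`.  Identity (`H = α+β+γ`):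
  `Bf = α V + β U + γ (U+V-H) + (U-α)(H-U) + (V-β)(H-V)`, so, as `V, U, U+V-H, H-U, H-V ≥ 0` and
  `α, U-α ≥ p₁ r`, `β, V-β ≥ p₂ r`, `γ ≥ p₃ r` (`p_i = (1-q_i)/2`),
  `Bf ≥ r (p₁ V + p₂ U + p₃ (U+V-H) + p₁ (H-U) + p₂ (H-V)) = r (q₁ U + q₂ V + q₃ H)`
  (uses `q₁+q₂+q₃ = 1`) `≥ r² (q₁(1-q₁) + q₂(1-q₂) + q₃) = r² (1 - q₁² - q₂²)`; `Cst.pent`.
-/

namespace Pool.Agent.H86.TS

theorem Lc2_main {q₁ q₂ q₃ T M H H' U V W α β γ r : ℝ} (hC : Cst q₁ q₂ q₃ T) (hM : 0 ≤ M)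
    (hU0 : 0 < U) (hV0 : 0 < V) (hU : U < H) (hV : V < H) (hW : H ≤ W)
    (hs : H + H' = U + V + W) (hr : 0 ≤ r) (hsum : α + β + γ = H)
    (a1 : (1 - q₁) / 2 * r ≤ α) (a2 : (1 - q₁) / 2 * r ≤ U - α)
    (b1 : (1 - q₂) / 2 * r ≤ β) (b2 : (1 - q₂) / 2 * r ≤ V - β)
    (c1 : (1 - q₃) / 2 * r ≤ γ) :
    r ^ 2 ≤ T * Bf H U V W + 1 / 8 * NF M H H' U V W := by
  have hq1 := hC.h1
  have hq2 := hC.h2
  have hq3 := hC.h3
  have hqs := hC.sum
  have hT := hC.T0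
  have hNF : 0 ≤ NF M H H' U V W := by
    unfold NF
    rw [gM_big1 (M := M) (h := H) (v := V) (w := W) hV,
      gM_big1 (M := M) (h := H') (v := V) (w := W) (by linarith),
      gM_big1 (M := M) (h := H) (v := U) (w := W) hU,
      gM_big1 (M := M) (h := H') (v := U) (w := W) (by linarith),
      gM_big1 (M := M) (h := H) (v := U) (w := V) hU,
      gM_big1 (M := M) (h := H') (v := U) (w := V) (by linarith)]
    have h1 := gM_nonneg M (H' - U) V W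
    have h2 := gM_nonneg M (H - U) V W
    have h3 := gM_nonneg M (H' - V) U W
    have h4 := gM_nonneg M (H - V) U W
    have h5 := gM_nonneg M (H' - W) U V
    have h6 := gM_nonneg M (H - W) U V
    linarith
  have hBf : Bf H U V W = H ^ 2 - (H - U) ^ 2 - (H - V) ^ 2 + p2 (H - U - V) := by
    unfold Bf
    rw [p2_of_nonneg (t := H) (by linarith), p2_of_nonneg (t := H - U) (by linarith),
      p2_of_nonneg (t := H - V) (by linarith), p2_of_nonpos (t := H - W) (by linarith),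
      p2_of_nonpos (t := H - U - W) (by linarith), p2_of_nonpos (t := H - V - W) (by linarith),
      p2_of_nonpos (t := H - U - V - W) (by linarith)]
    ring
  have hUr : (1 - q₁) * r ≤ U := by linarith
  have hVr : (1 - q₂) * r ≤ V := by linarith
  have hHr : r ≤ H := by nlinarith
  have hp1 : 0 ≤ (1 - q₁) * r := mul_nonneg (by linarith) hr
  have hp2 : 0 ≤ (1 - q₂) * r := mul_nonneg (by linarith) hr
  suffices h : r ^ 2 ≤ T * Bf H U V W by linarith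
  rcases le_or_gt (U + V) H with hUV | hUV
  · have h1 : Bf H U V W = 2 * (U * V) := by
      rw [hBf, p2_of_nonneg (by linarith)]
      ring
    have h2 : ((1 - q₁) * r) * ((1 - q₂) * r) ≤ U * V := mul_le_mul hUr hVr hp2 hU0.le
    rw [h1]
    have h3 := hC.para
    have h4 : r ^ 2 * 1 ≤ r ^ 2 * (T * (2 * ((1 - q₁) * (1 - q₂)))) :=
      mul_le_mul_of_nonneg_left h3 (sq_nonneg r)
    have h5 : T * (2 * (((1 - q₁) * r) * ((1 - q₂) * r))) ≤ T * (2 * (U * V)) :=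
      mul_le_mul_of_nonneg_left (by linarith) hT.le
    calc r ^ 2 = r ^ 2 * 1 := (mul_one _).symm
      _ ≤ r ^ 2 * (T * (2 * ((1 - q₁) * (1 - q₂)))) := h4
      _ = T * (2 * (((1 - q₁) * r) * ((1 - q₂) * r))) := by ring
      _ ≤ T * (2 * (U * V)) := h5
  · have h1 : Bf H U V W = α * V + β * U + γ * (U + V - H) + (U - α) * (H - U) +
        (V - β) * (H - V) := by
      rw [hBf, p2_of_nonpos (by linarith), ← hsum]
      ring
    have e1 : (1 - q₁) / 2 * r * V ≤ α * V := mul_le_mul_of_nonneg_right a1 hV0.le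
    have e2 : (1 - q₂) / 2 * r * U ≤ β * U := mul_le_mul_of_nonneg_right b1 hU0.le
    have e3 : (1 - q₃) / 2 * r * (U + V - H) ≤ γ * (U + V - H) :=
      mul_le_mul_of_nonneg_right c1 (by linarith)
    have e4 : (1 - q₁) / 2 * r * (H - U) ≤ (U - α) * (H - U) :=
      mul_le_mul_of_nonneg_right a2 (by linarith)
    have e5 : (1 - q₂) / 2 * r * (H - V) ≤ (V - β) * (H - V) :=
      mul_le_mul_of_nonneg_right b2 (by linarith)
    have f1 : q₁ * r * ((1 - q₁) * r) ≤ q₁ * r * U :=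
      mul_le_mul_of_nonneg_left hUr (mul_nonneg hq1.le hr)
    have f2 : q₂ * r * ((1 - q₂) * r) ≤ q₂ * r * V :=
      mul_le_mul_of_nonneg_left hVr (mul_nonneg hq2.le hr)
    have f3 : q₃ * r * r ≤ q₃ * r * H := mul_le_mul_of_nonneg_left hHr (mul_nonneg hq3.le hr)
    have hq3' : q₃ = 1 - q₁ - q₂ := by linarith
    have h2 : r ^ 2 * (1 - q₁ ^ 2 - q₂ ^ 2) ≤ Bf H U V W := by
      rw [h1]
      have g1 : r ^ 2 * (1 - q₁ ^ 2 - q₂ ^ 2) =
          q₁ * r * ((1 - q₁) * r) + q₂ * r * ((1 - q₂) * r) + q₃ * r * r := by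
        rw [hq3']
        ring
      have g2 : (1 - q₁) / 2 * r * V + (1 - q₂) / 2 * r * U + (1 - q₃) / 2 * r * (U + V - H) +
          (1 - q₁) / 2 * r * (H - U) + (1 - q₂) / 2 * r * (H - V) =
          q₁ * r * U + q₂ * r * V + q₃ * r * H := by
        rw [hq3']
        ring
      linarith
    have h3 := hC.pent
    have h4 : r ^ 2 * 1 ≤ r ^ 2 * (T * (1 - q₁ ^ 2 - q₂ ^ 2)) :=
      mul_le_mul_of_nonneg_left h3 (sq_nonneg r)
    have h5 : T * (r ^ 2 * (1 - q₁ ^ 2 - q₂ ^ 2)) ≤ T * Bf H U V W :=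
      mul_le_mul_of_nonneg_left h2 hT.le
    linarith

end Pool.Agent.H86.TS
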