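import Pool.Agent.H86.TS.Lc0

/-!
ROW Lc3 (110 lines).  Hexagon: `U, V, W < H` and `U, V, W < H'`, `H + H' = U+V+W`.  Then `H < V + W` etc. (from `U < H'`), so
`Bf = H² - (H-U)² - (H-V)² - (H-W)²`, and `NF` is the sum of the six squares `(min h M)²` for
`h = H'-U, H'-V, H'-W, H-U, H-V, H-W` (all `> 0`, and e.g. `H'-U = V+W-H ≤ V, W`; `H-U = V+W-H' ≤ V, W`); the terms
`gM M H ..`, `gM M H' ..` vanish.
* `Bf ≥ (1-q₁²-q₂²-q₃²) r²`: identity (`H = α+β+γ`)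
  `Bf = α (V+W-H) + (U-α)(H-U) + β (U+W-H) + (V-β)(H-V) + γ (U+V-H) + (W-γ)(H-W)`, so with `p_i = (1-q_i)/2`
  `Bf ≥ r (p₁ (V+W-U) + p₂ (U+W-V) + p₃ (U+V-W)) = r (q₁ U + q₂ V + q₃ W) ≥ r² (q₁(1-q₁)+q₂(1-q₂)+q₃(1-q₃))`.
  So `T * Bf ≥ 11/12 r²` (`Cst.hex`).
* `NF ≥ 2/3 r²`: if some `h > M` then `NF ≥ M² ≥ 8 r²`.  Otherwise `NF = Σ h² ≥ (Σ h)²/6 = (U+V+W)²/6 ≥ (2r)²/6`
  (`Σ h = 3(H+H') - 2(U+V+W) = U+V+W ≥ (1-q₁+1-q₂+1-q₃) r = 2 r`).
-/

namespace Pool.Agent.H86.TS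

theorem Lc3_cs (a b c d e f : ℝ) : (a + b + c + d + e + f) ^ 2 ≤
    6 * (a ^ 2 + b ^ 2 + c ^ 2 + d ^ 2 + e ^ 2 + f ^ 2) := by
  have h : 6 * (a ^ 2 + b ^ 2 + c ^ 2 + d ^ 2 + e ^ 2 + f ^ 2) - (a + b + c + d + e + f) ^ 2 =
      (a - b) ^ 2 + (a - c) ^ 2 + (a - d) ^ 2 + (a - e) ^ 2 + (a - f) ^ 2 + (b - c) ^ 2 + (b - d) ^ 2 +
        (b - e) ^ 2 + (b - f) ^ 2 + (c - d) ^ 2 + (c - e) ^ 2 + (c - f) ^ 2 + (d - e) ^ 2 + (d - f) ^ 2 +
        (e - f) ^ 2 := by ring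
  have h2 : 0 ≤ 6 * (a ^ 2 + b ^ 2 + c ^ 2 + d ^ 2 + e ^ 2 + f ^ 2) - (a + b + c + d + e + f) ^ 2 := by
    rw [h]
    positivity
  linarith

theorem Lc3_Bf {q₁ q₂ q₃ H U V W α β γ r : ℝ} (hq : q₁ + q₂ + q₃ = 1) (h1 : 0 < q₁) (h2 : 0 < q₂) (h3 : 0 < q₃)
    (hU : U < H) (hV : V < H) (hW : W < H) (hU' : H < V + W) (hV' : H < U + W) (hW' : H < U + V)
    (hr : 0 ≤ r) (hsum : α + β + γ = H)
    (a1 : (1 - q₁) / 2 * r ≤ α) (a2 : (1 - q₁) / 2 * r ≤ U - α)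
    (b1 : (1 - q₂) / 2 * r ≤ β) (b2 : (1 - q₂) / 2 * r ≤ V - β)
    (c1 : (1 - q₃) / 2 * r ≤ γ) (c2 : (1 - q₃) / 2 * r ≤ W - γ) :
    (1 - q₁ ^ 2 - q₂ ^ 2 - q₃ ^ 2) * r ^ 2 ≤ H ^ 2 - (H - U) ^ 2 - (H - V) ^ 2 - (H - W) ^ 2 := by
  have e1 : H ^ 2 - (H - U) ^ 2 - (H - V) ^ 2 - (H - W) ^ 2 =
      α * (V + W - H) + (U - α) * (H - U) + β * (U + W - H) + (V - β) * (H - V) + γ * (U + V - H) +
        (W - γ) * (H - W) := by
    subst hsum
    ring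
  rw [e1]
  have f1 := mul_le_mul_of_nonneg_right a1 (by linarith : 0 ≤ V + W - H)
  have f2 := mul_le_mul_of_nonneg_right a2 (by linarith : 0 ≤ H - U)
  have f3 := mul_le_mul_of_nonneg_right b1 (by linarith : 0 ≤ U + W - H)
  have f4 := mul_le_mul_of_nonneg_right b2 (by linarith : 0 ≤ H - V)
  have f5 := mul_le_mul_of_nonneg_right c1 (by linarith : 0 ≤ U + V - H)
  have f6 := mul_le_mul_of_nonneg_right c2 (by linarith : 0 ≤ H - W)
  have g1 : q₁ * r * ((1 - q₁) * r) ≤ q₁ * r * U :=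
    mul_le_mul_of_nonneg_left (by linarith) (by positivity)
  have g2 : q₂ * r * ((1 - q₂) * r) ≤ q₂ * r * V :=
    mul_le_mul_of_nonneg_left (by linarith) (by positivity)
  have g3 : q₃ * r * ((1 - q₃) * r) ≤ q₃ * r * W :=
    mul_le_mul_of_nonneg_left (by linarith) (by positivity)
  have e2 : (1 - q₁) / 2 * r * (V + W - H) + (1 - q₁) / 2 * r * (H - U) +
      (1 - q₂) / 2 * r * (U + W - H) + (1 - q₂) / 2 * r * (H - V) +
      (1 - q₃) / 2 * r * (U + V - H) + (1 - q₃) / 2 * r * (H - W) =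
      q₁ * r * U + q₂ * r * V + q₃ * r * W := by
    obtain rfl : q₃ = 1 - q₁ - q₂ := by linarith
    ring
  have e3 : q₁ * r * ((1 - q₁) * r) + q₂ * r * ((1 - q₂) * r) + q₃ * r * ((1 - q₃) * r) =
      (1 - q₁ ^ 2 - q₂ ^ 2 - q₃ ^ 2) * r ^ 2 := by
    obtain rfl : q₃ = 1 - q₁ - q₂ := by linarith
    ring
  linarith

theorem Lc3_NF {M H H' U V W : ℝ}
    (hU : U < H) (hV : V < H) (hW : W < H) (hU' : U < H') (hV' : V < H') (hW' : W < H')
    (hs : H + H' = U + V + W) :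
    NF M H H' U V W = (min (H' - U) M) ^ 2 + (min (H - U) M) ^ 2 + (min (H' - V) M) ^ 2 +
      (min (H - V) M) ^ 2 + (min (H' - W) M) ^ 2 + (min (H - W) M) ^ 2 := by
  unfold NF
  rw [gM_big1 (h := H) (v := V) (w := W) hV, gM_big1 (h := H') (v := V) (w := W) hV',
    gM_big1 (h := H) (v := U) (w := W) hU, gM_big1 (h := H') (v := U) (w := W) hU',
    gM_big1 (h := H) (v := U) (w := V) hU, gM_big1 (h := H') (v := U) (w := V) hU',
    gM_in (h := H' - U) (v := V) (w := W) (by linarith) (by linarith) (by linarith),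
    gM_in (h := H - U) (v := V) (w := W) (by linarith) (by linarith) (by linarith),
    gM_in (h := H' - V) (v := U) (w := W) (by linarith) (by linarith) (by linarith),
    gM_in (h := H - V) (v := U) (w := W) (by linarith) (by linarith) (by linarith),
    gM_in (h := H' - W) (v := U) (w := V) (by linarith) (by linarith) (by linarith),
    gM_in (h := H - W) (v := U) (w := V) (by linarith) (by linarith) (by linarith)]
  ring

theorem Lc3_main {q₁ q₂ q₃ T M H H' U V W α β γ r : ℝ} (hC : Cst q₁ q₂ q₃ T) (hM : 0 ≤ M)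
    (hU : U < H) (hV : V < H) (hW : W < H) (hU' : U < H') (hV' : V < H') (hW' : W < H')
    (hs : H + H' = U + V + W) (hr : 0 ≤ r) (hrM : 8 * r ^ 2 ≤ M ^ 2) (hsum : α + β + γ = H)
    (a1 : (1 - q₁) / 2 * r ≤ α) (a2 : (1 - q₁) / 2 * r ≤ U - α)
    (b1 : (1 - q₂) / 2 * r ≤ β) (b2 : (1 - q₂) / 2 * r ≤ V - β)
    (c1 : (1 - q₃) / 2 * r ≤ γ) (c2 : (1 - q₃) / 2 * r ≤ W - γ) :
    r ^ 2 ≤ T * Bf H U V W + 1 / 8 * NF M H H' U V W := by
  have h1 := hC.h1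
  have h2 := hC.h2
  have h3 := hC.h3
  have hq := hC.sum
  have hT := hC.T0
  have hq1 : 0 ≤ (1 - q₁) / 2 * r := mul_nonneg (by linarith) hr
  have hq2 : 0 ≤ (1 - q₂) / 2 * r := mul_nonneg (by linarith) hr
  have hq3 : 0 ≤ (1 - q₃) / 2 * r := mul_nonneg (by linarith) hr
  have hU0 : 0 ≤ U := by linarith
  have eB : Bf H U V W = H ^ 2 - (H - U) ^ 2 - (H - V) ^ 2 - (H - W) ^ 2 := by
    unfold Bf
    rw [p2_of_nonneg (by linarith : 0 ≤ H), p2_of_nonneg (by linarith : 0 ≤ H - U),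
      p2_of_nonneg (by linarith : 0 ≤ H - V), p2_of_nonneg (by linarith : 0 ≤ H - W),
      p2_of_nonpos (by linarith : H - U - V ≤ 0), p2_of_nonpos (by linarith : H - U - W ≤ 0),
      p2_of_nonpos (by linarith : H - V - W ≤ 0), p2_of_nonpos (by linarith : H - U - V - W ≤ 0)]
    ring
  have hB := Lc3_Bf hq h1 h2 h3 hU hV hW (by linarith) (by linarith) (by linarith) hr hsum a1 a2 b1 b2 c1 c2
  rw [← eB] at hB
  have hTB : 11 / 12 * r ^ 2 ≤ T * Bf H U V W := by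
    calc 11 / 12 * r ^ 2 ≤ T * (1 - q₁ ^ 2 - q₂ ^ 2 - q₃ ^ 2) * r ^ 2 :=
          mul_le_mul_of_nonneg_right hC.hex (sq_nonneg r)
      _ = T * ((1 - q₁ ^ 2 - q₂ ^ 2 - q₃ ^ 2) * r ^ 2) := by ring
      _ ≤ T * Bf H U V W := mul_le_mul_of_nonneg_left hB hT.le
  have hN := Lc3_NF (M := M) hU hV hW hU' hV' hW' hs
  have s1 := sq_nonneg (min (H' - U) M)
  have s2 := sq_nonneg (min (H - U) M)
  have s3 := sq_nonneg (min (H' - V) M)
  have s4 := sq_nonneg (min (H - V) M)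
  have s5 := sq_nonneg (min (H' - W) M)
  have s6 := sq_nonneg (min (H - W) M)
  have hr2 := sq_nonneg r
  rcases le_total M (H' - U) with t | t1
  · rw [min_eq_right t] at hN
    linarith
  rcases le_total M (H - U) with t | t2
  · rw [min_eq_right t] at hN
    linarith
  rcases le_total M (H' - V) with t | t3
  · rw [min_eq_right t] at hN
    linarith
  rcases le_total M (H - V) with t | t4
  · rw [min_eq_right t] at hN
    linarith
  rcases le_total M (H' - W) with t | t5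
  · rw [min_eq_right t] at hN
    linarith
  rcases le_total M (H - W) with t | t6
  · rw [min_eq_right t] at hN
    linarith
  rw [min_eq_left t1, min_eq_left t2, min_eq_left t3, min_eq_left t4, min_eq_left t5, min_eq_left t6] at hN
  have hsum6 : (H' - U) + (H - U) + (H' - V) + (H - V) + (H' - W) + (H - W) = U + V + W := by linarith
  have hge : 2 * r ≤ U + V + W := by
    have : (1 - q₁) / 2 * r + (1 - q₁) / 2 * r + ((1 - q₂) / 2 * r + (1 - q₂) / 2 * r) +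
        ((1 - q₃) / 2 * r + (1 - q₃) / 2 * r) = 2 * r := by
      obtain rfl : q₃ = 1 - q₁ - q₂ := by linarith
      ring
    linarith
  have hsq : (2 * r) ^ 2 ≤ (U + V + W) ^ 2 := pow_le_pow_left₀ (by linarith) hge 2
  have hcs : (U + V + W) ^ 2 ≤ 6 * ((H' - U) ^ 2 + (H - U) ^ 2 + (H' - V) ^ 2 + (H - V) ^ 2 +
      (H' - W) ^ 2 + (H - W) ^ 2) := by
    rw [← hsum6]
    exact Lc3_cs _ _ _ _ _ _
  linarith

end Pool.Agent.H86.TS
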