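import Pool.Agent.H86.TS.Lc1
import Pool.Agent.H86.TS.Lc2
import Pool.Agent.H86.TS.Lc3

/-!
ROW LcM (150 lines).  Assembly of the local inequality.
* `LcM_low`: if at least one of `U, V, W` is `≥ H` (and `0 < H`): cases `Lc0_main` (all three `≥ H`), `Lc1_main` (exactly one
  `< H`; permute with `Bf_perm12/13`, `NF_perm12/13`, `Cst.perm12/13`), `Lc2_main` (exactly two `< H`, permute).
  `r ≤ H` since `H = α+β+γ ≥ (p₁+p₂+p₃) r = r`; `(1-q₁) r ≤ U` from `a1 + a2`.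
* `LcM_main`: if `H ≤ 0`: then `r = 0` (`r ≤ H`), and `Bf = 0`, `NF = 0`: all `p2` vanish; `gM M H .. = 0`, `gM M (H-U) .. = 0`
  (`gM_neg`), `gM M (H'-U) V W = 0` as `H'-U = V+W-H > V`, `gM M H' V W = 0` as `H' > V`.
  If `H' ≤ 0` the same by `Bf_swap`, `NF_swap`.  If some width is `≥ H`: `LcM_low`.  If some width is `≥ H'`: `LcM_low` for
  `(H', U-α, V-β, W-γ)` with `Bf_swap` (`H' = U+V+W-H`) and `NF_swap`.  Otherwise `Lc3_main`.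
* `RH_eq`: `RH` in terms of `Bf`, `NF` with `H = -(a₁+b₁+c₁)`, `H' = a₂+b₂+c₂`, widths `a₂-a₁` etc. (`unfold`, `congr`/`ring_nf`
  inside the arguments).
* `loc`: `LcM_main` with `α = x-a₁` etc.
* `loc0`: if `H = -(a₁+b₁+c₁) ≤ 0` or `H' = a₂+b₂+c₂ ≤ 0`: the right side is 0 as above (make a lemma `RH_zero`).  Otherwise
  `loc` with `r = 0` and the point `x = a₁ + θ (a₂-a₁)`, ..., `θ = H/(H+H') ∈ (0,1)`.
-/

namespace Pool.Agent.H86.TS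

theorem LcM_zero {M H H' U V W : ℝ} (hU : 0 < U) (hV : 0 < V) (hW : 0 < W)
    (hs : H + H' = U + V + W) (hH : H ≤ 0) : Bf H U V W = 0 ∧ NF M H H' U V W = 0 := by
  constructor
  · unfold Bf
    rw [p2_of_nonpos hH, p2_of_nonpos (by linarith : H - U ≤ 0), p2_of_nonpos (by linarith : H - V ≤ 0),
      p2_of_nonpos (by linarith : H - W ≤ 0), p2_of_nonpos (by linarith : H - U - V ≤ 0),
      p2_of_nonpos (by linarith : H - U - W ≤ 0), p2_of_nonpos (by linarith : H - V - W ≤ 0),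
      p2_of_nonpos (by linarith : H - U - V - W ≤ 0)]
    ring
  · unfold NF
    rw [gM_big1 (by linarith : V < H' - U), gM_neg hH, gM_big1 (by linarith : V < H'),
      gM_neg (by linarith : H - U ≤ 0), gM_big1 (by linarith : U < H' - V), gM_neg hH,
      gM_big1 (by linarith : U < H'), gM_neg (by linarith : H - V ≤ 0), gM_big1 (by linarith : U < H' - W),
      gM_neg hH, gM_big1 (by linarith : U < H'), gM_neg (by linarith : H - W ≤ 0)]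
    ring

theorem LcM_low {q₁ q₂ q₃ T M H H' U V W α β γ r : ℝ} (hC : Cst q₁ q₂ q₃ T) (hM : 0 ≤ M)
    (hH : 0 < H) (hU : 0 < U) (hV : 0 < V) (hW : 0 < W)
    (hs : H + H' = U + V + W) (hr : 0 ≤ r) (hsum : α + β + γ = H)
    (a1 : (1 - q₁) / 2 * r ≤ α) (a2 : (1 - q₁) / 2 * r ≤ U - α)
    (b1 : (1 - q₂) / 2 * r ≤ β) (b2 : (1 - q₂) / 2 * r ≤ V - β)
    (c1 : (1 - q₃) / 2 * r ≤ γ) (c2 : (1 - q₃) / 2 * r ≤ W - γ)
    (hw : H ≤ U ∨ H ≤ V ∨ H ≤ W) :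
    r ^ 2 ≤ T * Bf H U V W + 1 / 8 * NF M H H' U V W := by
  have hrH : r ≤ H := by
    have h1 : (1 - q₁) / 2 * r + (1 - q₂) / 2 * r + (1 - q₃) / 2 * r = r := by
      have h2 : (1 - q₁) / 2 * r + (1 - q₂) / 2 * r + (1 - q₃) / 2 * r
          = (3 - (q₁ + q₂ + q₃)) / 2 * r := by ring
      rw [h2, hC.sum]
      ring
    linarith
  have hrU : (1 - q₁) * r ≤ U := by linarith
  have hrV : (1 - q₂) * r ≤ V := by linarith
  have hrW : (1 - q₃) * r ≤ W := by linarith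
  rcases le_or_gt H U with h1 | h1 <;> rcases le_or_gt H V with h2 | h2 <;>
    rcases le_or_gt H W with h3 | h3
  · exact Lc0_main hC hM hH h1 h2 h3 hs hr hrH
  · rw [Bf_perm13, NF_perm13]
    exact Lc1_main hC.perm13 hM hW h3 h2 h1 (by linarith) hr hrH hrW
  · rw [Bf_perm12, NF_perm12]
    exact Lc1_main hC.perm12 hM hV h2 h1 h3 (by linarith) hr hrH hrV
  · rw [Bf_perm13, NF_perm13]
    exact Lc2_main hC.perm13 hM hW hV h3 h2 h1 (by linarith) hr (by linarith : γ + β + α = H)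
      c1 c2 b1 b2 a1
  · exact Lc1_main hC hM hU h1 h2 h3 hs hr hrH hrU
  · rw [Bf_perm12, Bf_perm13 H V U W, NF_perm12, NF_perm13 M H H' V U W]
    exact Lc2_main hC.perm12.perm13 hM hW hU h3 h1 h2 (by linarith) hr (by linarith : γ + α + β = H)
      c1 c2 a1 a2 b1
  · exact Lc2_main hC hM hU hV h1 h2 h3 hs hr hsum a1 a2 b1 b2 c1
  · rcases hw with h | h | h
    · exact absurd h (not_le.2 h1)
    · exact absurd h (not_le.2 h2)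
    · exact absurd h (not_le.2 h3)

theorem LcM_main {q₁ q₂ q₃ T M H H' U V W α β γ r : ℝ} (hC : Cst q₁ q₂ q₃ T) (hM : 0 ≤ M)
    (hU : 0 < U) (hV : 0 < V) (hW : 0 < W)
    (hs : H + H' = U + V + W) (hr : 0 ≤ r) (hrM : 8 * r ^ 2 ≤ M ^ 2) (hsum : α + β + γ = H)
    (a1 : (1 - q₁) / 2 * r ≤ α) (a2 : (1 - q₁) / 2 * r ≤ U - α)
    (b1 : (1 - q₂) / 2 * r ≤ β) (b2 : (1 - q₂) / 2 * r ≤ V - β)
    (c1 : (1 - q₃) / 2 * r ≤ γ) (c2 : (1 - q₃) / 2 * r ≤ W - γ) :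
    r ^ 2 ≤ T * Bf H U V W + 1 / 8 * NF M H H' U V W := by
  have hkey : (1 - q₁) / 2 * r + (1 - q₂) / 2 * r + (1 - q₃) / 2 * r = r := by
    have h2 : (1 - q₁) / 2 * r + (1 - q₂) / 2 * r + (1 - q₃) / 2 * r
        = (3 - (q₁ + q₂ + q₃)) / 2 * r := by ring
    rw [h2, hC.sum]
    ring
  have hB : Bf H U V W = Bf H' U V W := by
    rw [Bf_swap H U V W]
    congr 1
    linarith
  rcases le_or_gt H 0 with hH | hH
  · have hr0 : r = 0 := by linarith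
    obtain ⟨e1, e2⟩ := LcM_zero (M := M) hU hV hW hs hH
    rw [e1, e2, hr0]
    norm_num
  rcases le_or_gt H' 0 with hH' | hH'
  · have hr0 : r = 0 := by linarith
    obtain ⟨e1, e2⟩ := LcM_zero (M := M) (H := H') (H' := H) hU hV hW (by linarith) hH'
    rw [hB, NF_swap, e1, e2, hr0]
    norm_num
  by_cases hw : H ≤ U ∨ H ≤ V ∨ H ≤ W
  · exact LcM_low hC hM hH hU hV hW hs hr hsum a1 a2 b1 b2 c1 c2 hw
  by_cases hw' : H' ≤ U ∨ H' ≤ V ∨ H' ≤ W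
  · rw [hB, NF_swap]
    refine LcM_low (α := U - α) (β := V - β) (γ := W - γ) hC hM hH' hU hV hW (by linarith) hr
      (by linarith) a2 ?_ b2 ?_ c2 ?_ hw'
    · linarith
    · linarith
    · linarith
  · push Not at hw hw'
    exact Lc3_main hC hM hw.1 hw.2.1 hw.2.2 hw'.1 hw'.2.1 hw'.2.2 hs hr hrM hsum a1 a2 b1 b2 c1 c2

theorem RH_eq (T M a₁ a₂ b₁ b₂ c₁ c₂ : ℝ) : RH T M a₁ a₂ b₁ b₂ c₁ c₂ =
    T * Bf (-(a₁ + b₁ + c₁)) (a₂ - a₁) (b₂ - b₁) (c₂ - c₁)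
      + 1 / 8 * NF M (-(a₁ + b₁ + c₁)) (a₂ + b₂ + c₂) (a₂ - a₁) (b₂ - b₁) (c₂ - c₁) := by
  unfold RH BB GG Bf NF
  have e1 : -(a₁ + b₁ + c₁) - (a₂ - a₁) = -(a₂ + b₁ + c₁) := by ring
  have e2 : -(a₁ + b₁ + c₁) - (b₂ - b₁) = -(a₁ + b₂ + c₁) := by ring
  have e3 : -(a₁ + b₁ + c₁) - (c₂ - c₁) = -(a₁ + b₁ + c₂) := by ring
  have e4 : -(a₂ + b₁ + c₁) - (b₂ - b₁) = -(a₂ + b₂ + c₁) := by ring
  have e5 : -(a₂ + b₁ + c₁) - (c₂ - c₁) = -(a₂ + b₁ + c₂) := by ring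
  have e6 : -(a₁ + b₂ + c₁) - (c₂ - c₁) = -(a₁ + b₂ + c₂) := by ring
  have e7 : -(a₂ + b₂ + c₁) - (c₂ - c₁) = -(a₂ + b₂ + c₂) := by ring
  have f1 : a₂ + b₂ + c₂ - (a₂ - a₁) = a₁ + b₂ + c₂ := by ring
  have f2 : a₂ + b₂ + c₂ - (b₂ - b₁) = b₁ + a₂ + c₂ := by ring
  have f3 : a₂ + b₂ + c₂ - (c₂ - c₁) = c₁ + a₂ + b₂ := by ring
  have g1 : b₁ + a₁ + c₁ = a₁ + b₁ + c₁ := by ring
  have g2 : b₂ + a₂ + c₂ = a₂ + b₂ + c₂ := by ring
  have g3 : b₂ + a₁ + c₁ = a₁ + b₂ + c₁ := by ring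
  have g4 : c₁ + a₁ + b₁ = a₁ + b₁ + c₁ := by ring
  have g5 : c₂ + a₂ + b₂ = a₂ + b₂ + c₂ := by ring
  have g6 : c₂ + a₁ + b₁ = a₁ + b₁ + c₂ := by ring
  rw [e1, e2, e3, e4, e5, e6, e7, f1, f2, f3, g1, g2, g3, g4, g5, g6]
  ring

theorem loc {q₁ q₂ q₃ T M a₁ a₂ b₁ b₂ c₁ c₂ x y z r : ℝ} (hC : Cst q₁ q₂ q₃ T) (hM : 0 ≤ M)
    (ha : a₁ < a₂) (hb : b₁ < b₂) (hc : c₁ < c₂) (hrM : 8 * r ^ 2 ≤ M ^ 2)
    (h : InCell q₁ q₂ q₃ a₁ a₂ b₁ b₂ c₁ c₂ x y z r) : r ^ 2 ≤ RH T M a₁ a₂ b₁ b₂ c₁ c₂ := by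
  rw [RH_eq]
  have h1 := h.xa
  have h2 := h.xb
  have h3 := h.ya
  have h4 := h.yb
  have h5 := h.za
  have h6 := h.zb
  have h7 := h.sum
  exact LcM_main (α := x - a₁) (β := y - b₁) (γ := z - c₁) hC hM (by linarith) (by linarith) (by linarith)
    (by ring) h.r0 hrM (by linarith) (by linarith) (by linarith) (by linarith) (by linarith)
    (by linarith) (by linarith)

theorem loc0 {q₁ q₂ q₃ T M a₁ a₂ b₁ b₂ c₁ c₂ : ℝ} (hC : Cst q₁ q₂ q₃ T) (hM : 0 ≤ M)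
    (ha : a₁ < a₂) (hb : b₁ < b₂) (hc : c₁ < c₂) : 0 ≤ RH T M a₁ a₂ b₁ b₂ c₁ c₂ := by
  rw [RH_eq]
  set H : ℝ := -(a₁ + b₁ + c₁) with hH
  set H' : ℝ := a₂ + b₂ + c₂ with hH'
  have hU : 0 < a₂ - a₁ := by linarith
  have hV : 0 < b₂ - b₁ := by linarith
  have hW : 0 < c₂ - c₁ := by linarith
  have hs : H + H' = (a₂ - a₁) + (b₂ - b₁) + (c₂ - c₁) := by rw [hH, hH']; ring
  have hB : Bf H (a₂ - a₁) (b₂ - b₁) (c₂ - c₁) = Bf H' (a₂ - a₁) (b₂ - b₁) (c₂ - c₁) := by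
    rw [Bf_swap H]
    congr 1
    linarith
  rcases le_or_gt H 0 with h1 | h1
  · obtain ⟨e1, e2⟩ := LcM_zero (M := M) hU hV hW hs h1
    rw [e1, e2]
    norm_num
  rcases le_or_gt H' 0 with h2 | h2
  · obtain ⟨e1, e2⟩ := LcM_zero (M := M) (H := H') (H' := H) hU hV hW (by linarith) h2
    rw [hB, NF_swap, e1, e2]
    norm_num
  have hHH : 0 < H + H' := by linarith
  set θ : ℝ := H / (H + H') with hθ
  have hθ0 : 0 ≤ θ := by positivity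
  have hθ1 : θ ≤ 1 := by
    rw [hθ, div_le_one hHH]
    linarith
  have hθs : θ * (H + H') = H := div_mul_cancel₀ H hHH.ne'
  have key : ∀ u : ℝ, 0 < u → 0 ≤ θ * u ∧ 0 ≤ u - θ * u := by
    intro u hu
    refine ⟨by positivity, ?_⟩
    have : u - θ * u = (1 - θ) * u := by ring
    rw [this]
    exact mul_nonneg (by linarith) hu.le
  have hk := LcM_main (q₁ := q₁) (q₂ := q₂) (q₃ := q₃) (T := T) (M := M) (H := H) (H' := H')
    (α := θ * (a₂ - a₁)) (β := θ * (b₂ - b₁)) (γ := θ * (c₂ - c₁)) (r := 0) hC hM hU hV hW hs le_rfl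
    (by nlinarith [sq_nonneg M]) (by rw [← mul_add, ← mul_add, ← hs, hθs])
    (by rw [mul_zero]; exact (key _ hU).1) (by rw [mul_zero]; exact (key _ hU).2)
    (by rw [mul_zero]; exact (key _ hV).1) (by rw [mul_zero]; exact (key _ hV).2)
    (by rw [mul_zero]; exact (key _ hW).1) (by rw [mul_zero]; exact (key _ hW).2)
  simpa using hk

end Pool.Agent.H86.TS
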