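import Pool.Agent.H86.TS.AvA
import Pool.Agent.H86.TS.DeR
import Pool.Agent.H86.TS.CoA

/-!
ROW MaA (160 lines).  From lines of three directions to a frame, and the bound for finite sets of discs.
* `frame_of`: `exists_triple` gives `n'`, `exists_frame` gives `f` with `f j = c • n' j`; so every `n i` is a nonzero multiple of some `f j`.
* `sepBy_of`: `D ≠ D'`, a separating line `⟪n k, x⟫ = t` avoiding all open discs; `n k = c • f j`, so (with `c⁻¹`) the line is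
  `⟪f j, x⟫ = c⁻¹ t` (`sep_smul`, `avoid_smul` for `c⁻¹`, `c⁻¹ • n k = f j`); translate with `le_iff`, `ge_iff`, `avoid_iff` (`f j ≠ 0` from
  `Frame.det`, resp. `f 2 = 0` would give `f 1 = - f 0` and `dt = 0`).
* `Phi_tendsto`: continuity of `Phi` at `0` (from the right; `√` is continuous, denominator `1` at `0`) and `TT_dt`.
* `fin_bound`: `avg` with `ρ = ε R`, `L = √ε R`, `R' = R + ε R` (a disc of radius `≤ εR` meeting `closedBall 0 R` has `‖o‖ ≤ R + εR`);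
  `0 < ε < 1` gives `ε < √ε`; divide by `(√ε - ε)² R² = ε (1-√ε)² R²`.
-/

namespace Pool.Agent.H86.TS

open Filter Topology

/-- the hypothesis of the main theorem: separation by lines with normal vectors `n 0, n 1, n 2` -/
def TotSep3 {ι : Type*} (n : Fin 3 → E) (o : ι → E) (r : ι → ℝ) : Prop :=
  ∀ i j, i ≠ j → ∃ (k : Fin 3) (t : ℝ),
    (Sep (n k) t (o i) (o j) (r i) (r j) ∨ Sep (n k) t (o j) (o i) (r j) (r i)) ∧
      ∀ l, ∀ x ∈ Metric.ball (o l) (r l), inner ℝ (n k) x ≠ t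

/-- the bound for the density -/
noncomputable def Phi (f : Fin 3 → E) (ε : ℝ) : ℝ :=
  |dt (f 0) (f 1)| * (2 * TT f + 6 * √ε) / (1 - √ε) ^ 2 *
    (1 + ε + 2 * √ε / |dt (f 0) (f 1)|) ^ 2

theorem frame_of (n : Fin 3 → E) (hn : ∀ i, n i ≠ 0) :
    ∃ f : Fin 3 → E, Frame f ∧ ∀ i, ∃ (j : Fin 3) (c : ℝ), c ≠ 0 ∧ n i = c • f j := by
  obtain ⟨n', h01, h12, h20, hnn⟩ := exists_triple n hn
  obtain ⟨f, hf, hfn⟩ := exists_frame n' h01 h12 h20
  refine ⟨f, hf, fun i => ?_⟩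
  obtain ⟨j, c, hc, hij⟩ := hnn i
  obtain ⟨d, hd, hfd⟩ := hfn j
  refine ⟨j, c * d⁻¹, mul_ne_zero hc (inv_ne_zero hd), ?_⟩
  rw [hij, hfd, smul_smul, mul_assoc, inv_mul_cancel₀ hd, mul_one]

theorem frame_ne {f : Fin 3 → E} (hf : Frame f) (j : Fin 3) : f j ≠ 0 := by
  intro h
  apply hf.det
  fin_cases j
  · have h0 : f 0 = 0 := h
    simp [dt, h0]
  · have h0 : f 1 = 0 := h
    simp [dt, h0]
  · have h0 : f 2 = 0 := h
    have h1 : f 1 = - f 0 := by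
      have := hf.sum
      rw [h0, add_zero] at this
      exact (neg_eq_of_add_eq_zero_right this).symm
    rw [h1]
    simp only [dt, PiLp.neg_apply]
    ring

theorem sepBy_of {ι : Type*} {n f : Fin 3 → E} (hf : Frame f)
    (hnf : ∀ i, ∃ (j : Fin 3) (c : ℝ), c ≠ 0 ∧ n i = c • f j) {o : ι → E} {r : ι → ℝ}
    (hr : ∀ i, 0 < r i) (h : TotSep3 n o r) (s : Finset ι) :
    ∀ D ∈ s, ∀ D' ∈ s, D ≠ D' → ∃ i : Fin 3,
      SepBy s ‖f i‖ (fun D => inner ℝ (f i) (o D)) r D D' := by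
  intro D _ D' _ hne
  obtain ⟨k, t, hsep, hav⟩ := h D D' hne
  obtain ⟨j, c, hc, hnk⟩ := hnf k
  have hci : c⁻¹ ≠ 0 := inv_ne_zero hc
  have hfj : f j = c⁻¹ • n k := by
    rw [hnk, smul_smul, inv_mul_cancel₀ hc, one_smul]
  have hfne := frame_ne hf j
  refine ⟨j, c⁻¹ * t, ?_, ?_⟩
  · intro l _
    have h1 := avoid_smul hci (hav l)
    rw [← hfj] at h1
    exact (avoid_iff hfne (o l) (hr l)).1 h1
  · have key : ∀ a b : ι, Sep (f j) (c⁻¹ * t) (o a) (o b) (r a) (r b) →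
        (inner ℝ (f j) (o a) + ‖f j‖ * r a ≤ c⁻¹ * t ∧
          c⁻¹ * t ≤ inner ℝ (f j) (o b) - ‖f j‖ * r b) := by
      intro a b hab
      exact ⟨(le_iff (f j) (o a) (hr a).le).1 hab.1, (ge_iff (f j) (o b) (hr b).le).1 hab.2⟩
    have h2 : Sep (f j) (c⁻¹ * t) (o D) (o D') (r D) (r D') ∨
        Sep (f j) (c⁻¹ * t) (o D') (o D) (r D') (r D) := by
      rw [hfj]
      rcases hsep with h3 | h3
      · exact sep_smul hci h3
      · exact (sep_smul hci h3).symm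
    rcases h2 with h3 | h3
    · exact Or.inl (key _ _ h3)
    · exact Or.inr (key _ _ h3)

theorem Phi_tendsto {f : Fin 3 → E} (hf : Frame f) :
    Tendsto (Phi f) (𝓝[>] 0) (𝓝 (11 / (24 * √3))) := by
  have hc : ContinuousAt (Phi f) 0 := by
    unfold Phi
    refine ContinuousAt.mul (ContinuousAt.div (by fun_prop) (by fun_prop) (by simp)) (by fun_prop)
  have h0 : Phi f 0 = 11 / (24 * √3) := by
    rw [← TT_dt hf]
    simp [Phi]
    ring
  have h1 : Tendsto (Phi f) (𝓝 0) (𝓝 (Phi f 0)) := hc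
  rw [h0] at h1
  exact h1.mono_left nhdsWithin_le_nhds

theorem fin_bound {ι : Type*} {n f : Fin 3 → E} (hf : Frame f)
    (hnf : ∀ i, ∃ (j : Fin 3) (c : ℝ), c ≠ 0 ∧ n i = c • f j) {o : ι → E} {r : ι → ℝ}
    (hr : ∀ i, 0 < r i) (h : TotSep3 n o r) (s : Finset ι) {R ε : ℝ} (hR : 0 < R)
    (hε : 0 < ε) (hε1 : ε < 1) (hs : ∀ D ∈ s, r D ≤ ε * R)
    (hm : ∀ D ∈ s, (Metric.closedBall (o D) (r D) ∩ Metric.closedBall 0 R).Nonempty) :
    ∑ D ∈ s, (r D) ^ 2 ≤ Real.pi * R ^ 2 * Phi f ε := by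
  have hse0 : 0 < √ε := Real.sqrt_pos.2 hε
  have hsq : √ε ^ 2 = ε := Real.sq_sqrt hε.le
  have hse1 : √ε < 1 := by
    nlinarith
  have hlt : ε < √ε := by
    nlinarith
  have ho : ∀ D ∈ s, ‖o D‖ ≤ R + ε * R := by
    intro D hD
    obtain ⟨x, hx1, hx2⟩ := hm D hD
    rw [Metric.mem_closedBall] at hx1 hx2
    rw [dist_zero_right] at hx2
    have h1 : ‖o D‖ ≤ ‖x‖ + dist x (o D) := by
      rw [dist_eq_norm]
      have : o D = x - (x - o D) := by abel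
      calc ‖o D‖ = ‖x - (x - o D)‖ := by rw [← this]
        _ ≤ ‖x‖ + ‖x - o D‖ := norm_sub_le _ _
    linarith [hs D hD]
  have hav := avg hf s o r (R' := R + ε * R) (ρ := ε * R) (L := √ε * R) (fun D _ => hr D) hs
    (by positivity) (by nlinarith) ho (sepBy_of hf hnf hr h s)
  have hd : |dt (f 0) (f 1)| ≠ 0 := abs_ne_zero.2 hf.det
  set d := |dt (f 0) (f 1)| with hdd
  set q := √ε with hq
  have hq1 : (0 : ℝ) < 1 - q := by linarith
  have hpos : 0 < ε * R ^ 2 * (1 - q) ^ 2 := by positivity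
  have e1 : (q * R - ε * R) ^ 2 = ε * R ^ 2 * (1 - q) ^ 2 := by
    rw [← hsq]; ring
  have e2 : d * (TT f * (2 * (q * R) * (q * R)) + 3 * (ε * R) * (2 * (q * R))) *
      (Real.pi * (R + ε * R + 2 * (q * R) / d) ^ 2) =
      (ε * R ^ 2 * (1 - q) ^ 2) * (Real.pi * R ^ 2 * Phi f ε) := by
    unfold Phi
    rw [← hdd, ← hq, ← hsq]
    field_simp
    ring
  rw [e1, e2, mul_comm] at hav
  exact le_of_mul_le_mul_left hav hpos

end Pool.Agent.H86.TS
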