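import Pool.Agent.H86.TS.MaA

/-!
ROW MaB (160 lines).  The main theorem.
* `countable_of`: the open balls are pairwise disjoint (a common point `x` of two balls satisfies `⟪n k, x⟫ ≤ t` and `≥ t`, so `= t`, excluded),
  nonempty and open, so `ι` is countable (`Set.PairwiseDisjoint.countable_of_isOpen` applied to `Set.univ`, or `Pairwise...countable`).
* Fix `ε ∈ (0,1)`.  For all large `R`: the discs meeting `closedBall 0 R` have `r ≤ ε R`.  The set in the numerator is contained in the union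
  of these discs, so its measure is `≤ ∑' i : I_R, volume (closedBall (o i) (r i))` (`measure_biUnion_le`), and
  `volume (closedBall x r) = ofReal (π r²)`-form (`EuclideanSpace.volume_closedBall_fin_two`); every finite subsum is
  `≤ ofReal (π · π R² Phi f ε)` by `fin_bound`, so the whole sum is (`ENNReal.tsum_eq_iSup_sum`, `iSup_le`).  Dividing by `π R²`: the quotient is
  `≤ ofReal (π Phi f ε)` for all large `R`, so `limsup ≤ ofReal (π Phi f ε)` (`limsup_le_of_le`).
* Let `ε → 0+` (`Phi_tendsto`, `ENNReal.continuous_ofReal`, `ge_of_tendsto`).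
-/

namespace Pool.Agent.H86.TS

open Filter Topology MeasureTheory

theorem countable_of {ι : Type*} {n : Fin 3 → E} {o : ι → E} {r : ι → ℝ}
    (hr : ∀ i, 0 < r i) (h : TotSep3 n o r) : Countable ι := by
  have h1 : (Set.univ : Set ι).PairwiseDisjoint (fun i => Metric.ball (o i) (r i)) := by
    intro i _ j _ hij
    refine Set.disjoint_left.mpr fun x hxi hxj => ?_
    obtain ⟨k, t, hs, ha⟩ := h i j hij
    have hxi' := Metric.ball_subset_closedBall hxi
    have hxj' := Metric.ball_subset_closedBall hxj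
    rcases hs with hs | hs
    · exact ha i x hxi (le_antisymm (hs.1 x hxi') (hs.2 x hxj'))
    · exact ha i x hxi (le_antisymm (hs.1 x hxj') (hs.2 x hxi'))
  have h2 : (Set.univ : Set ι).Countable :=
    h1.countable_of_isOpen (fun i _ => Metric.isOpen_ball)
      (fun i _ => ⟨o i, Metric.mem_ball_self (hr i)⟩)
  exact Set.countable_univ_iff.mp h2


theorem MaB_step {ι : Type*} (o : ι → E) (r : ι → ℝ) (hr : ∀ i, 0 < r i) (n f : Fin 3 → E)
    (hf : Frame f) (hnf : ∀ i, ∃ (j : Fin 3) (c : ℝ), c ≠ 0 ∧ n i = c • f j)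
    (h : TotSep3 n o r) {R ε : ℝ} (hR : 0 < R) (hε : 0 < ε) (hε1 : ε < 1)
    (hg : ∀ i, (Metric.closedBall (o i) (r i) ∩ Metric.closedBall 0 R).Nonempty → r i ≤ ε * R) :
    volume ((⋃ i, Metric.closedBall (o i) (r i)) ∩ Metric.closedBall 0 R) /
      volume (Metric.closedBall (0 : E) R) ≤ ENNReal.ofReal (Real.pi * Phi f ε) := by
  classical
  have hcount : Countable ι := countable_of hr h
  have hpi := Real.pi_pos
  have hvol : ∀ (x : E) (ρ : ℝ), 0 ≤ ρ → volume (Metric.closedBall x ρ) =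
      ENNReal.ofReal (Real.pi * ρ ^ 2) := by
    intro x ρ hρ
    rw [EuclideanSpace.volume_closedBall_fin_two, ← ENNReal.ofReal_pow hρ]
    rw [← ENNReal.ofReal_mul (by positivity)]
    ring_nf
  let I : Set ι := {i | (Metric.closedBall (o i) (r i) ∩ Metric.closedBall 0 R).Nonempty}
  have hI : I.Countable := Set.to_countable I
  have hsub : (⋃ i, Metric.closedBall (o i) (r i)) ∩ Metric.closedBall 0 R ⊆
      ⋃ i ∈ I, Metric.closedBall (o i) (r i) := by
    rintro x ⟨hx1, hx2⟩
    obtain ⟨i, hi⟩ := Set.mem_iUnion.mp hx1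
    exact Set.mem_iUnion₂.mpr ⟨i, ⟨x, hi, hx2⟩, hi⟩
  refine ENNReal.div_le_of_le_mul ?_
  have hPhi : 0 ≤ Real.pi * R ^ 2 * Phi f ε := by
    have := fin_bound hf hnf hr h (∅ : Finset ι) hR hε hε1 (by simp) (by simp)
    simpa using this
  have hPhi2 : 0 ≤ Phi f ε := by
    by_contra hc
    push Not at hc
    have : Real.pi * R ^ 2 * Phi f ε < 0 := mul_neg_of_pos_of_neg (by positivity) hc
    linarith
  rw [hvol 0 R hR.le, ← ENNReal.ofReal_mul (by positivity)]
  refine (measure_mono hsub).trans ((measure_biUnion_le volume hI _).trans ?_)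
  rw [ENNReal.tsum_eq_iSup_sum]
  refine iSup_le fun s => ?_
  have hs1 : ∀ D ∈ s.map (Function.Embedding.subtype _), D ∈ I := by
    intro D hD
    obtain ⟨a, _, ha⟩ := Finset.mem_map.mp hD
    rw [← ha]
    exact a.2
  have hb := fin_bound hf hnf hr h (s.map (Function.Embedding.subtype _)) hR hε hε1
    (fun D hD => hg D (hs1 D hD)) (fun D hD => hs1 D hD)
  rw [Finset.sum_map] at hb
  have h5 : ∑ a ∈ s, volume (Metric.closedBall (o a) (r a)) =
      ENNReal.ofReal (∑ a ∈ s, Real.pi * (r a) ^ 2) := by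
    rw [ENNReal.ofReal_sum_of_nonneg (fun a _ => by positivity)]
    exact Finset.sum_congr rfl fun a _ => hvol _ _ (hr a).le
  rw [h5]
  refine ENNReal.ofReal_le_ofReal ?_
  rw [← Finset.mul_sum]
  have h6 : ∑ a ∈ s, (r a) ^ 2 ≤ Real.pi * R ^ 2 * Phi f ε := hb
  calc Real.pi * ∑ a ∈ s, (r a) ^ 2 ≤ Real.pi * (Real.pi * R ^ 2 * Phi f ε) :=
        mul_le_mul_of_nonneg_left h6 hpi.le
    _ = Real.pi * Phi f ε * (Real.pi * R ^ 2) := by ring

theorem main {ι : Type*} (o : ι → E) (r : ι → ℝ) (hr : ∀ i, 0 < r i) (n : Fin 3 → E)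
    (hn : ∀ i, n i ≠ 0) (h : TotSep3 n o r)
    (hg : ∀ ε > 0, ∀ᶠ R : ℝ in atTop, ∀ i,
      (Metric.closedBall (o i) (r i) ∩ Metric.closedBall 0 R).Nonempty → r i ≤ ε * R) :
    limsup (fun R : ℝ => volume ((⋃ i, Metric.closedBall (o i) (r i)) ∩ Metric.closedBall 0 R) /
      volume (Metric.closedBall (0 : E) R)) atTop ≤ ENNReal.ofReal (11 * Real.pi / (24 * √3)) := by
  obtain ⟨f, hf, hnf⟩ := frame_of n hn
  have hlim : Tendsto (fun ε => ENNReal.ofReal (Real.pi * Phi f ε)) (𝓝[>] 0)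
      (𝓝 (ENNReal.ofReal (11 * Real.pi / (24 * √3)))) := by
    have h1 := (Phi_tendsto hf).const_mul Real.pi
    have h2 := (ENNReal.continuous_ofReal.tendsto _).comp h1
    have h3 : Real.pi * (11 / (24 * √3)) = 11 * Real.pi / (24 * √3) := by ring
    rw [h3] at h2
    exact h2
  refine ge_of_tendsto hlim ?_
  filter_upwards [Ioo_mem_nhdsGT (zero_lt_one' ℝ)] with ε hε
  refine limsup_le_of_le (h := ?_)
  filter_upwards [hg ε hε.1, eventually_gt_atTop (0 : ℝ)] with R hR1 hR2
  exact MaB_step o r hr n f hf hnf h hR2 hε.1 hε.2 hR1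

end Pool.Agent.H86.TS
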