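import Pool.Agent.H86.TS.Defs

/-!
ROW PoA (60 lines).  Elementary consequences of `Cst`; put `e = q₁q₂q₃`.
* `T_ge`: AM-GM `27 e ≤ 1`, so `T² = 121/(1728 e) ≥ 121·27/1728 = (11/8)²`; use `pow_le_pow_left₀`/`abs_le_abs`
  (`by_contra`, `T < 11/8`, then `1728 e T² < 121`: nlinarith).
* `hex`: `1 - Σq² = 2 (q₁q₂+q₂q₃+q₃q₁) =: 2 s`, `s² ≥ 3 e (q₁+q₂+q₃) = 3 e`
  (nlinarith [sq_nonneg (q₁q₂ - q₂q₃), ...]), so `(T · 2 s)² ≥ 4·3·e·T² = 12·121/1728 = (11/12)²`.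
* `para`: `(1-q₁)(1-q₂) = q₃ + q₁q₂`, `(q₃ + q₁q₂)² ≥ 4 e`, so `(2T(1-q₁)(1-q₂))² ≥ 16 e T² = 16·121/1728 ≥ 1`.
In all cases: from `X ≥ 0` and `X² ≥ c²`, `X ≥ c` (`abs_le_of_sq_le_sq`, `pow_le_pow_left₀`, `Real.sqrt`, or `by_contra` + nlinarith).
-/

namespace Pool.Agent.H86.TS

theorem PoA_sq {x c : ℝ} (hx : 0 ≤ x) (h : c ^ 2 ≤ x ^ 2) : c ≤ x :=
  (le_abs_self c).trans (abs_le_of_sq_le_sq h hx)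

theorem Cst.perm12 {q₁ q₂ q₃ T : ℝ} (h : Cst q₁ q₂ q₃ T) : Cst q₂ q₁ q₃ T :=
  ⟨h.h2, h.h1, h.h3, by linarith [h.sum], h.T0, by rw [← h.T2]; ring⟩

theorem Cst.perm13 {q₁ q₂ q₃ T : ℝ} (h : Cst q₁ q₂ q₃ T) : Cst q₃ q₂ q₁ T :=
  ⟨h.h3, h.h2, h.h1, by linarith [h.sum], h.T0, by rw [← h.T2]; ring⟩

theorem Cst.perm23 {q₁ q₂ q₃ T : ℝ} (h : Cst q₁ q₂ q₃ T) : Cst q₁ q₃ q₂ T :=
  ⟨h.h1, h.h3, h.h2, by linarith [h.sum], h.T0, by rw [← h.T2]; ring⟩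

theorem PoA_amgm {a b c : ℝ} (ha : 0 < a) (hb : 0 < b) (hc : 0 < c) (hs : a + b + c = 1) :
    27 * (a * b * c) ≤ 1 := by
  have h1 := mul_nonneg ha.le (sq_nonneg (b - c))
  have h2 := mul_nonneg hb.le (sq_nonneg (a - c))
  have h3 := mul_nonneg hc.le (sq_nonneg (a - b))
  have h4 : 0 ≤ (a + b + c) * ((a - b) ^ 2 + (b - c) ^ 2 + (a - c) ^ 2) :=
    mul_nonneg (by linarith) (by positivity)
  have h5 : (a + b + c) ^ 3 = 1 := by rw [hs]; norm_num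
  nlinarith [h1, h2, h3, h4, h5]

theorem Cst.T_ge {q₁ q₂ q₃ T : ℝ} (h : Cst q₁ q₂ q₃ T) : 11 / 8 ≤ T := by
  have h1 := PoA_amgm h.h1 h.h2 h.h3 h.sum
  refine PoA_sq h.T0.le ?_
  have h2 := mul_le_mul_of_nonneg_right h1 (sq_nonneg T)
  linarith [h.T2]

theorem Cst.hex {q₁ q₂ q₃ T : ℝ} (h : Cst q₁ q₂ q₃ T) :
    11 / 12 ≤ T * (1 - q₁ ^ 2 - q₂ ^ 2 - q₃ ^ 2) := by
  have e1 : 1 - q₁ ^ 2 - q₂ ^ 2 - q₃ ^ 2 = 2 * (q₁ * q₂ + q₂ * q₃ + q₃ * q₁) := by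
    have h5 : (q₁ + q₂ + q₃) ^ 2 = 1 := by rw [h.sum]; norm_num
    linarith
  have p12 := mul_pos h.h1 h.h2
  have p23 := mul_pos h.h2 h.h3
  have p31 := mul_pos h.h3 h.h1
  have h3 : 3 * (q₁ * q₂ * q₃) ≤ (q₁ * q₂ + q₂ * q₃ + q₃ * q₁) ^ 2 := by
    have h6 : 3 * (q₁ * q₂ * q₃) = 3 * (q₁ * q₂ * q₃) * (q₁ + q₂ + q₃) := by
      rw [h.sum, mul_one]
    rw [h6]
    nlinarith [sq_nonneg (q₁ * q₂ - q₂ * q₃), sq_nonneg (q₂ * q₃ - q₃ * q₁),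
      sq_nonneg (q₁ * q₂ - q₃ * q₁)]
  rw [e1]
  refine PoA_sq (mul_nonneg h.T0.le (by positivity)) ?_
  have h2 := mul_le_mul_of_nonneg_right h3 (sq_nonneg T)
  rw [mul_pow, mul_pow]
  linarith [h.T2]

theorem Cst.para {q₁ q₂ q₃ T : ℝ} (h : Cst q₁ q₂ q₃ T) :
    1 ≤ T * (2 * ((1 - q₁) * (1 - q₂))) := by
  have e1 : (1 - q₁) * (1 - q₂) = q₃ + q₁ * q₂ := by
    have h5 : q₃ = 1 - q₁ - q₂ := by linarith [h.sum]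
    rw [h5]
    ring
  have p12 := mul_pos h.h1 h.h2
  have p3 := h.h3
  have h3 : 4 * (q₁ * q₂ * q₃) ≤ (q₃ + q₁ * q₂) ^ 2 := by
    nlinarith [sq_nonneg (q₃ - q₁ * q₂)]
  rw [e1]
  refine PoA_sq (mul_nonneg h.T0.le (by positivity)) ?_
  have h2 := mul_le_mul_of_nonneg_right h3 (sq_nonneg T)
  rw [mul_pow, mul_pow]
  linarith [h.T2]

end Pool.Agent.H86.TS
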