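import Pool.Agent.H86.TS.Defs

/-!
ROW PoB (80 lines).  `pent`: put `s = q₃ = 1 - q₁ - q₂`, `P = q₁ q₂`, `α = s (2 - s)`; then `1 - q₁² - q₂² = α + 2 P`
and the claim is `121 (α + 2P)² ≥ 1728 P s` (then `(T (1-q₁²-q₂²))² ≥ 1`).
* `s ≤ 1/5`: `(α + 2P)² ≥ 8 α P = 8 P s (2 - s)` and `121·8·(2 - s) ≥ 968·(9/5) = 1742.4 ≥ 1728`.
* `s ≥ 1/5`: `P ≤ P₀ := (1-s)²/4 ≤ α/2` (as `3 s² - 6 s + 1 ≤ 0` for `s ≥ 1/5`).  `(α+2P)²/P` is decreasing for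
  `P ≤ α/2`: `(α+2P)² P₀ - (α+2P₀)² P = (P₀ - P)(α² - 4 P P₀) ≥ 0` as `2P ≤ α`, `2P₀ ≤ α`.  At `P₀` one needs
  `121 (1 + 2s - s²)² ≥ 1728 s (1-s)²` for `1/5 ≤ s ≤ 1`.  (All `s ∈ [0,1]` are fine except that the margin is small:
  ratio at `s = 0.21` is `1.0115`.)  With `t = s`: e.g. `nlinarith`/`polyrith`, or: the tangent trick
  `√s ≤ (s + m)/(2√m)`, i.e. `4 m s ≤ (s+m)²` for the rational `m = 21/100`; it is enough that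
  `11·2·√m (1+2s-s²) ≥ 24√3 (s+m)(1-s)`, or in squared form `121·4 m (1+2s-s²)² ≥ 1728 (s+m)² (1-s)²`, i.e.
  `22 √m (1+2s-s²) ≥ 24 √3 (s+m)(1-s)`; with `m = 21/100` use the rational bounds `√m ≥ 0.45825`, `√3 ≤ 1.73206`:
  `10.0815 (1+2s-s²) ≥ 41.5695 (s+m)(1-s)`, a quadratic inequality in `s` with negative discriminant
  (`31.488 s² - 12.6769 s + 1.3519... > 0`): check numerically, then nlinarith.
Any other proof is fine.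
-/

namespace Pool.Agent.H86.TS

theorem PoB_one {s : ℝ} (h0 : 0 ≤ s) (h1 : s ≤ 1) :
    1728 * (s * (1 - s) ^ 2) ≤ 121 * (1 + 2 * s - s ^ 2) ^ 2 := by
  have e1 : (s + 21 / 100) * (1 - s) ≤ 2425 / 10000 * (1 + 2 * s - s ^ 2) := by
    nlinarith [sq_nonneg (s - 305 / 1515)]
  have e2 : 0 ≤ (s + 21 / 100) * (1 - s) := mul_nonneg (by linarith) (by linarith)
  have e3 : ((s + 21 / 100) * (1 - s)) ^ 2 ≤ (2425 / 10000 * (1 + 2 * s - s ^ 2)) ^ 2 :=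
    pow_le_pow_left₀ e2 e1 2
  have e4 : 4 * (21 / 100) * s * (1 - s) ^ 2 ≤ ((s + 21 / 100) * (1 - s)) ^ 2 := by
    nlinarith [mul_nonneg (sq_nonneg (s - 21 / 100)) (sq_nonneg (1 - s))]
  nlinarith [sq_nonneg (1 + 2 * s - s ^ 2)]

theorem pent_poly {x y : ℝ} (hx : 0 < x) (hy : 0 < y) (h : x + y < 1) :
    1728 * (x * y * (1 - x - y)) ≤ 121 * (1 - x ^ 2 - y ^ 2) ^ 2 := by
  obtain ⟨s, hs⟩ : ∃ s, s = 1 - x - y := ⟨_, rfl⟩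
  obtain ⟨P, hP⟩ : ∃ P, P = x * y := ⟨_, rfl⟩
  have s0 : 0 < s := by linarith
  have s1 : s < 1 := by linarith
  have P0 : 0 < P := by rw [hP]; positivity
  have e1 : 1 - x ^ 2 - y ^ 2 = s * (2 - s) + 2 * P := by rw [hs, hP]; ring
  have e2 : 4 * P ≤ (1 - s) ^ 2 := by rw [hs, hP]; nlinarith [sq_nonneg (x - y)]
  rw [e1, ← hs, ← hP]
  have a0 : 0 < s * (2 - s) := mul_pos s0 (by linarith)
  obtain ⟨α, hα⟩ : ∃ α, α = s * (2 - s) := ⟨_, rfl⟩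
  rw [← hα] at a0 ⊢
  rcases le_total s (1 / 5) with h5 | h5
  · have e3 : 8 * α * P ≤ (α + 2 * P) ^ 2 := by nlinarith [sq_nonneg (α - 2 * P)]
    have e4 : 1728 * (P * s) ≤ 121 * (8 * α * P) := by
      have : 121 * (8 * α * P) - 1728 * (P * s) = (P * s) * (968 * (2 - s) - 1728) := by
        rw [hα]; ring
      have h7 : 0 ≤ (P * s) * (968 * (2 - s) - 1728) := by
        apply mul_nonneg (by positivity) (by linarith)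
      linarith
    linarith
  · -- `Q = (1-s)²/4`
    obtain ⟨Q, hQ⟩ : ∃ Q, Q = (1 - s) ^ 2 / 4 := ⟨_, rfl⟩
    have PQ : P ≤ Q := by rw [hQ]; linarith
    have Q0 : 0 < Q := lt_of_lt_of_le P0 PQ
    have Qa : 2 * Q ≤ α := by
      rw [hQ, hα]
      nlinarith
    have e5 : (α + 2 * Q) ^ 2 * P ≤ (α + 2 * P) ^ 2 * Q := by
      have : (α + 2 * P) ^ 2 * Q - (α + 2 * Q) ^ 2 * P = (Q - P) * (α ^ 2 - 4 * P * Q) := by ring
      have h8 : 0 ≤ α ^ 2 - 4 * P * Q := by nlinarith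
      have h9 := mul_nonneg (sub_nonneg.2 PQ) h8
      linarith
    have e6 : 1728 * (s * (4 * Q)) ≤ 121 * (2 * (α + 2 * Q)) ^ 2 := by
      have h10 := PoB_one s0.le s1.le
      have h11 : 4 * Q = (1 - s) ^ 2 := by rw [hQ]; ring
      have h12 : 2 * (α + 2 * Q) = 1 + 2 * s - s ^ 2 := by rw [hQ, hα]; ring
      rw [h11, h12]; exact h10
    have e7 : 1728 * (P * s) * Q ≤ 121 * (α + 2 * P) ^ 2 * Q := by
      have h13 := mul_le_mul_of_nonneg_right e6 P0.le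
      nlinarith
    exact le_of_mul_le_mul_right e7 Q0

theorem Cst.pent {q₁ q₂ q₃ T : ℝ} (h : Cst q₁ q₂ q₃ T) : 1 ≤ T * (1 - q₁ ^ 2 - q₂ ^ 2) := by
  obtain ⟨h1, h2, h3, hs, hT, hT2⟩ := h
  have h4 := pent_poly h1 h2 (by linarith)
  have h5 : 1 - q₁ - q₂ = q₃ := by linarith
  rw [h5] at h4
  have h6 : 0 < 1 - q₁ ^ 2 - q₂ ^ 2 := by nlinarith
  have h7 : 0 < T * (1 - q₁ ^ 2 - q₂ ^ 2) := mul_pos hT h6
  have h8 : 1 ≤ (T * (1 - q₁ ^ 2 - q₂ ^ 2)) ^ 2 := by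
    have h9 := mul_le_mul_of_nonneg_right h4 (sq_nonneg T)
    have h10 : (T * (1 - q₁ ^ 2 - q₂ ^ 2)) ^ 2 = (1 - q₁ ^ 2 - q₂ ^ 2) ^ 2 * T ^ 2 := by ring
    nlinarith
  nlinarith

end Pool.Agent.H86.TS
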