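import Pool.Agent.H86.TS.Defs

/-!
ROW PoC (60 lines).  `trap`: `q₂q₃ ≤ ((1-q₁)/2)²`, so `T² = 121/(1728 q₁q₂q₃) ≥ 484/(1728 q (1-q)²)`, `q = q₁`.  Wanted:
`T ≥ 1/8 + 1/(1-q²) = (9 - q²)/(8 (1-q²))`; it is enough that `484·64·(1+q)² ≥ 1728 q (9-q²)²`, i.e.
`trap_poly : 27 q (9 - q²)² ≤ 484 (1+q)²` for `0 ≤ q ≤ 1` (minimal ratio about 1.02 near `q = 0.65`).
Hint for `trap_poly`: with `m = 13/20`, `4 m q ≤ (q+m)²`, so it is enough that `27 (q+m)² (9-q²)² ≤ 484·4 m (1+q)²`,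
i.e. `√27 (q+m)(9-q²) ≤ 44 √m (1+q)`; with `√27 ≤ 5.19616`, `√m ≥ 0.80622`: the cubic
`35.4736 (1+q) - 5.19616 (q+m)(9-q²) ≥ 0` on `[0,1]` (minimum about 0.58 near `q = 0.66`).  Any other proof is fine.
-/

namespace Pool.Agent.H86.TS

theorem trap_cubic {q : ℝ} (h0 : 0 ≤ q) :
    0 ≤ 35.4736 * (1 + q) - 5.19616 * ((q + 0.65) * (9 - q ^ 2)) := by
  nlinarith [mul_nonneg h0 (sq_nonneg (q - 0.66)), sq_nonneg (q - 0.66)]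

theorem trap_poly {q : ℝ} (h0 : 0 ≤ q) (h1 : q ≤ 1) :
    27 * q * (9 - q ^ 2) ^ 2 ≤ 484 * (1 + q) ^ 2 := by
  have hc := trap_cubic h0
  have hq2 : q ^ 2 ≤ 1 := by nlinarith
  have h9 : 0 ≤ 9 - q ^ 2 := by linarith
  set Y : ℝ := (q + 0.65) * (9 - q ^ 2) with hY
  have hY0 : 0 ≤ Y := mul_nonneg (by linarith) h9
  have h2 : 5.19616 * Y ≤ 35.4736 * (1 + q) := by linarith
  have h3 : (5.19616 * Y) ^ 2 ≤ (35.4736 * (1 + q)) ^ 2 :=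
    pow_le_pow_left₀ (by positivity) h2 2
  have h4 : 4 * 0.65 * q * (9 - q ^ 2) ^ 2 ≤ Y ^ 2 := by
    have h5 : 0 ≤ (q - 0.65) ^ 2 * (9 - q ^ 2) ^ 2 := by positivity
    have h6 : Y ^ 2 = 4 * 0.65 * q * (9 - q ^ 2) ^ 2 + (q - 0.65) ^ 2 * (9 - q ^ 2) ^ 2 := by
      rw [hY]; ring
    linarith
  have h7 : 0 ≤ Y ^ 2 := sq_nonneg _
  have h8 : 0 ≤ (1 + q) ^ 2 := sq_nonneg _
  nlinarith [h3, h4, h7, h8]

theorem Cst.trap {q₁ q₂ q₃ T : ℝ} (h : Cst q₁ q₂ q₃ T) : 1 ≤ (T - 1 / 8) * (1 - q₁ ^ 2) := by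
  have h1 := h.h1
  have h2 := h.h2
  have h3 := h.h3
  have hs := h.sum
  have hT0 := h.T0
  have hT2 := h.T2
  have hq1 : q₁ < 1 := by linarith
  have hp := trap_poly h1.le hq1.le
  have h4 : 4 * (q₂ * q₃) ≤ (1 - q₁) ^ 2 := by
    have : 1 - q₁ = q₂ + q₃ := by linarith
    rw [this]
    nlinarith [sq_nonneg (q₂ - q₃)]
  have hT2' : 0 < T ^ 2 := by positivity
  have h5 : 484 ≤ 1728 * q₁ * (1 - q₁) ^ 2 * T ^ 2 := by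
    have h6 : 1728 * q₁ * (4 * (q₂ * q₃)) * T ^ 2 ≤ 1728 * q₁ * (1 - q₁) ^ 2 * T ^ 2 := by
      have : 1728 * q₁ * (4 * (q₂ * q₃)) ≤ 1728 * q₁ * (1 - q₁) ^ 2 :=
        mul_le_mul_of_nonneg_left h4 (by positivity)
      exact mul_le_mul_of_nonneg_right this hT2'.le
    have h7 : 1728 * q₁ * (4 * (q₂ * q₃)) * T ^ 2 = 484 := by
      have : 1728 * q₁ * (4 * (q₂ * q₃)) * T ^ 2 = 4 * (1728 * (q₁ * q₂ * q₃) * T ^ 2) := by ring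
      rw [this, hT2]; norm_num
    linarith
  have h8 : q₁ * (9 - q₁ ^ 2) ^ 2 ≤ q₁ * (8 * T * (1 - q₁ ^ 2)) ^ 2 := by
    have h9 : 484 * (1 + q₁) ^ 2 ≤ 1728 * q₁ * (1 - q₁) ^ 2 * T ^ 2 * (1 + q₁) ^ 2 :=
      mul_le_mul_of_nonneg_right h5 (by positivity)
    have h10 : q₁ * (8 * T * (1 - q₁ ^ 2)) ^ 2 * 27 =
        1728 * q₁ * (1 - q₁) ^ 2 * T ^ 2 * (1 + q₁) ^ 2 := by ring
    linarith
  have h11 : (9 - q₁ ^ 2) ^ 2 ≤ (8 * T * (1 - q₁ ^ 2)) ^ 2 := le_of_mul_le_mul_left h8 h1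
  have hq2 : q₁ ^ 2 < 1 := by nlinarith
  have h12 : 0 ≤ 8 * T * (1 - q₁ ^ 2) := mul_nonneg (by positivity) (by linarith)
  have h13 : 9 - q₁ ^ 2 ≤ 8 * T * (1 - q₁ ^ 2) := by
    by_contra hcon
    push Not at hcon
    nlinarith [hcon, h12, h11]
  nlinarith [h13]

end Pool.Agent.H86.TS
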